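import Pool.Agent.Lib.MP_2e9e4b_al.Defs

/-!
Arithmetic of the powers of a rational number.
-/

namespace Pool.Agent.GBSFix

lemma le_of_den_pow {s : ℚ} (hs : s.den ≠ 1) {M : ℤ} (hM : M ≠ 0) {k : ℕ}
    (h : ∃ z : ℤ, (M : ℚ) * s ^ k = z) : k ≤ M.natAbs := by
  obtain ⟨z, hz⟩ := h
  have hM' : (M : ℚ) ≠ 0 := by exact_mod_cast hM
  have h1 : s ^ k = (z : ℚ) / M := by
    field_simp
    linarith
  have h2 : ((s ^ k).den : ℤ) ∣ M := by
    rw [h1, ← Rat.divInt_eq_div]
    exact Rat.den_dvd z M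
  rw [Rat.den_pow] at h2
  have h3 : s.den ^ k ≤ M.natAbs := by
    have := Int.natAbs_dvd_natAbs.mpr h2
    rw [Int.natAbs_natCast] at this
    exact Nat.le_of_dvd (Int.natAbs_pos.mpr hM) this
  have h4 : 2 ≤ s.den := by
    have := s.den_pos
    omega
  have h5 : k < s.den ^ k := Nat.lt_pow_self (by omega)
  omega

theorem finite_values {r : ℚ}
    (h : ∀ n : ℤ, n ≠ -1 → {q : ℚ | ∃ k : ℤ, q = r ^ k} ≠ powersOf n) {M : ℤ} (hM : M ≠ 0) :
    {q : ℚ | (∃ k : ℤ, q = r ^ k) ∧ ∃ z : ℤ, (M : ℚ) * q = z}.Finite := by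
  by_cases h1 : r = -1
  · refine (Set.toFinite ({1, -1} : Set ℚ)).subset ?_
    rintro q ⟨⟨k, rfl⟩, _⟩
    rw [h1]
    rcases Int.even_or_odd k with hk | hk
    · left; exact hk.neg_one_zpow
    · right; exact hk.neg_one_zpow
  · have hden : r.den ≠ 1 := by
      intro hd
      have h2 : (r.num : ℚ) = r := Rat.coe_int_num_of_den_eq_one hd
      apply h r.num
      · intro h3
        apply h1
        rw [← h2, h3]; simp
      · ext q
        simp only [powersOf, Set.mem_ofPred_eq, h2]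
    have hden' : r⁻¹.den ≠ 1 := by
      intro hd
      have h2 : (r⁻¹.num : ℚ) = r⁻¹ := Rat.coe_int_num_of_den_eq_one hd
      apply h r⁻¹.num
      · intro h3
        apply h1
        rw [h3] at h2
        rw [← inv_inv r, ← h2]; norm_num
      · ext q
        simp only [powersOf, Set.mem_ofPred_eq, h2]
        constructor
        · rintro ⟨k, rfl⟩
          exact ⟨-k, by simp⟩
        · rintro ⟨k, rfl⟩
          exact ⟨-k, by simp⟩
    refine ((Finset.Icc (-(M.natAbs : ℤ)) M.natAbs).finite_toSet.image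
      (fun k : ℤ => r ^ k)).subset ?_
    rintro q ⟨⟨k, rfl⟩, hz⟩
    refine ⟨k, ?_, rfl⟩
    rw [Finset.mem_coe, Finset.mem_Icc]
    obtain ⟨m, rfl | rfl⟩ := k.eq_nat_or_neg
    · rw [zpow_natCast] at hz
      have := le_of_den_pow hden hM hz
      omega
    · rw [zpow_neg, ← inv_zpow, zpow_natCast] at hz
      have := le_of_den_pow hden' hM hz
      omega

/-- a finite set of rationals has a common denominator -/
lemma exists_common_den {S : Set ℚ} (hS : S.Finite) :
    ∃ M : ℤ, M ≠ 0 ∧ ∀ q ∈ S, ∃ z : ℤ, (M : ℚ) * q = z := by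
  induction S, hS using Set.Finite.induction_on with
  | empty => exact ⟨1, one_ne_zero, by simp⟩
  | @insert a S _ _ ih =>
    obtain ⟨M, hM, h⟩ := ih
    refine ⟨M * a.den, mul_ne_zero hM (by exact_mod_cast a.den_nz), ?_⟩
    rintro q (rfl | hq)
    · refine ⟨M * q.num, ?_⟩
      push_cast
      rw [mul_assoc, Rat.den_mul_eq_num]
    · obtain ⟨z, hz⟩ := h q hq
      refine ⟨z * a.den, ?_⟩
      push_cast
      rw [← hz]; ring

end Pool.Agent.GBSFix
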