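import Pool.Agent.Lib.MP_2e9e4b_al.Cocycle
import Pool.Agent.Lib.MP_2e9e4b_al.Arith

/-!
The case where the automorphism maps elliptic elements to elliptic elements.
-/

namespace Pool.Agent.GBSFix

open SimpleGraph

variable {G : Type*} [Group G] {V : Type*} [MulAction G V] {T : SimpleGraph V}

/-- the values of the modular homomorphism with bounded denominators form a finite set -/
def FinVal (a : G) : Prop :=
  ∀ M : ℤ, M ≠ 0 → {q : ℚ | (∃ g : G, q = mu a g) ∧ ∃ z : ℤ, (M : ℚ) * q = z}.Finite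

section unions

lemma IsGBSSystem.exists_den (hS : IsGBSSystem G T) {a : G} (ha1 : a ≠ 1)
    (ha : ∃ v : V, a • v = v) (hfin : FinVal a) {u : G} (hu : ∃ v : V, u • v = v) (hu1 : u ≠ 1) :
    ∃ M : ℤ, M ≠ 0 ∧ ∀ v : V, u • v = v → ∀ y : G, y • v = v → ∃ z : ℤ, (M : ℚ) * ev a y = z := by
  classical
  have hinf := hS.infOrd ha ha1
  have hall := hS.allCm ha1 ha
  obtain ⟨r, s, hs, hr⟩ := exists_section G V
  have hrfin : (Set.range r).Finite := by
    have := hS.finite_vertices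
    have h1 : Set.range r ⊆ Set.range (fun o : VertexOrbits G V => r o.out) := by
      rintro _ ⟨v, rfl⟩
      refine ⟨Quotient.mk _ v, ?_⟩
      have := Quotient.mk_out (s := MulAction.orbitRel G V) v
      obtain ⟨g, hg⟩ := this
      simp only at hg ⊢
      rw [← hg, hr]
    exact (Set.finite_range _).subset h1
  choose gen hgen hgeninf using fun v : V => hS.vgen v
  have hu0 := hS.ev_ne_zero ha1 ha hu hu1
  have hgen1 : ∀ v, gen v ≠ 1 := by
    intro v h
    have := hgeninf v 1 (by rw [h]; simp)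
    exact one_ne_zero this
  have hgenfix : ∀ v, gen v • v = v := fun v => (hgen v _).mpr ⟨1, by simp⟩
  have hε0 : ∀ v, ev a (gen v) ≠ 0 := fun v => hS.ev_ne_zero ha1 ha ⟨v, hgenfix v⟩ (hgen1 v)
  -- elements of the stabiliser of `v`
  have hval : ∀ v : V, ∀ y : G, y • v = v → ∃ k : ℤ, ev a y = mu a (s v) * (k * ev a (gen (r v))) := by
    intro v y hy
    have h1 : ((s v)⁻¹ * y * s v) • r v = r v := by
      rw [mul_smul, mul_smul, hs, hy, inv_smul_eq_iff, hs]
    obtain ⟨k, hk⟩ := (hgen (r v) _).mp h1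
    refine ⟨k, ?_⟩
    have h2 : y = s v * (gen (r v)) ^ k * (s v)⁻¹ := by rw [hk]; group
    have h3 : Cm a (gen (r v)) := hS.cm ha1 ha ⟨_, hgenfix _⟩
    rw [h2, (ev_conj hinf hall (s v) (h3.zpow k)).2, ev_zpow hinf h3]
  -- the finite set of possible values
  set A : V → ℤ := fun v => (ev a u / ev a (gen v)).num with hA
  have hA0 : ∀ v, A v ≠ 0 := by
    intro v
    rw [hA]
    simp only [ne_eq, Rat.num_eq_zero]
    exact div_ne_zero hu0 (hε0 v)
  set F : Set ℚ := ⋃ ρ ∈ Set.range r, (fun q : ℚ => q⁻¹ * ev a (gen ρ)) ''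
    {q : ℚ | (∃ g : G, q = mu a g) ∧ ∃ z : ℤ, (A ρ : ℚ) * q = z} with hF
  have hFfin : F.Finite := hrfin.biUnion fun ρ _ => (hfin (A ρ) (hA0 ρ)).image _
  obtain ⟨M, hM, hMF⟩ := exists_common_den hFfin
  refine ⟨M, hM, ?_⟩
  intro v huv y hyv
  obtain ⟨N, hN⟩ := hval v u huv
  obtain ⟨k, hk⟩ := hval v y hyv
  have hmem : mu a (s v) * ev a (gen (r v)) ∈ F := by
    rw [hF]
    simp only [Set.mem_iUnion]
    refine ⟨r v, ⟨v, rfl⟩, (mu a (s v))⁻¹, ⟨⟨(s v)⁻¹, (mu_inv hinf hall _).symm⟩, ?_⟩, ?_⟩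
    · -- integrality
      refine ⟨N * (ev a u / ev a (gen (r v))).den, ?_⟩
      have h1 : ((ev a u / ev a (gen (r v))).num : ℚ) =
          (ev a u / ev a (gen (r v))) * (ev a u / ev a (gen (r v))).den :=
        (Rat.mul_den_eq_num _).symm
      have h2 : ev a u / ev a (gen (r v)) = mu a (s v) * N := by
        rw [hN]
        field_simp [hε0 (r v)]
      have h3 := mu_ne_zero hinf hall (s v)
      simp only [hA]
      rw [h1]
      conv_lhs => rw [h2]
      push_cast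
      rw [h2]
      field_simp
    · simp only [inv_inv]
  obtain ⟨z, hz⟩ := hMF _ hmem
  refine ⟨z * k, ?_⟩
  rw [hk]
  push_cast
  rw [← hz]
  ring

lemma IsGBSSystem.union_fg (hS : IsGBSSystem G T) {a : G} (ha1 : a ≠ 1)
    (ha : ∃ v : V, a • v = v) (hfin : FinVal a) (K : Subgroup G) (s : ℕ → V)
    (hs : ∀ i, ∀ k ∈ K, k • s i = s i → k • s (i + 1) = s (i + 1)) :
    ∃ U : Subgroup G, U.FG ∧ ∀ k, k ∈ U ↔ k ∈ K ∧ ∃ i : ℕ, k • s i = s i := by
  have hmono : ∀ k ∈ K, ∀ i j, i ≤ j → k • s i = s i → k • s j = s j := by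
    intro k hk i j hij h
    induction j, hij using Nat.le_induction with
    | base => exact h
    | succ j _ ih => exact hs j k hk ih
  set U : Subgroup G :=
    { carrier := {k | k ∈ K ∧ ∃ i : ℕ, k • s i = s i}
      one_mem' := ⟨K.one_mem, 0, by simp⟩
      mul_mem' := by
        rintro x y ⟨hx, i, hi⟩ ⟨hy, j, hj⟩
        refine ⟨K.mul_mem hx hy, max i j, ?_⟩
        rw [mul_smul, hmono y hy j _ (le_max_right i j) hj, hmono x hx i _ (le_max_left i j) hi]
      inv_mem' := by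
        rintro x ⟨hx, i, hi⟩
        exact ⟨K.inv_mem hx, i, by rw [inv_smul_eq_iff, hi]⟩ } with hU
  have hUm : ∀ k, k ∈ U ↔ k ∈ K ∧ ∃ i : ℕ, k • s i = s i := fun k => Iff.rfl
  refine ⟨U, ?_, hUm⟩
  by_cases htriv : ∀ k ∈ U, k = 1
  · have : U = ⊥ := by
      rw [Subgroup.eq_bot_iff_forall]; exact htriv
    rw [this]
    exact Subgroup.FG.bot
  push Not at htriv
  obtain ⟨u, ⟨huK, i₁, hi₁⟩, hu1⟩ := htriv
  obtain ⟨M, hM, hMz⟩ := hS.exists_den ha1 ha hfin ⟨_, hi₁⟩ hu1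
  have hinf := hS.infOrd ha ha1
  have hM' : (M : ℚ) ≠ 0 := by exact_mod_cast hM
  have hint : ∀ y ∈ U, ∃ z : ℤ, (M : ℚ) * ev a y = z := by
    rintro y ⟨hyK, i, hi⟩
    exact hMz (s (max i₁ i)) (hmono u huK i₁ _ (le_max_left _ _) hi₁) y
      (hmono y hyK i _ (le_max_right _ _) hi)
  have hadd : ∀ x ∈ U, ∀ y ∈ U, ev a (x * y) = ev a x + ev a y := by
    rintro x ⟨hxK, i, hi⟩ y ⟨hyK, j, hj⟩
    exact hS.ev_mul ha1 ha (hmono x hxK i _ (le_max_left i j) hi)
      (hmono y hyK j _ (le_max_right i j) hj)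
  have hell : ∀ x ∈ U, ∃ v : V, x • v = v := by
    rintro x ⟨_, i, hi⟩
    exact ⟨_, hi⟩
  have hinv : ∀ x ∈ U, ev a x⁻¹ = - ev a x := by
    intro x hx
    have := hadd x hx x⁻¹ (U.inv_mem hx)
    rw [mul_inv_cancel, ev_one hinf] at this
    linarith
  set B : AddSubgroup ℤ :=
    { carrier := {z | ∃ y ∈ U, (M : ℚ) * ev a y = z}
      zero_mem' := ⟨1, U.one_mem, by rw [ev_one hinf]; simp⟩
      add_mem' := by
        rintro z z' ⟨y, hy, h⟩ ⟨y', hy', h'⟩
        refine ⟨y * y', U.mul_mem hy hy', ?_⟩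
        rw [hadd y hy y' hy']
        push_cast
        rw [← h, ← h']; ring
      neg_mem' := by
        rintro z ⟨y, hy, h⟩
        refine ⟨y⁻¹, U.inv_mem hy, ?_⟩
        rw [hinv y hy]
        push_cast
        rw [← h]; ring } with hB
  obtain ⟨m₀, hm₀⟩ := Int.subgroup_cyclic B
  have hm₀B : m₀ ∈ B := by
    rw [hm₀]; exact AddSubgroup.subset_closure rfl
  obtain ⟨y₀, hy₀, hy₀m⟩ := hm₀B
  have key : U = Subgroup.zpowers y₀ := by
    apply le_antisymm
    · intro y hy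
      obtain ⟨z, hz⟩ := hint y hy
      have hzB : z ∈ B := ⟨y, hy, hz⟩
      rw [hm₀, AddSubgroup.mem_closure_singleton] at hzB
      obtain ⟨k, hk⟩ := hzB
      refine ⟨k, ?_⟩
      simp only
      have h1 : y₀ ^ k ∈ U := U.zpow_mem hy₀ k
      have h2 : ev a (y * (y₀ ^ k)⁻¹) = 0 := by
        rw [hadd y hy _ (U.inv_mem h1), hinv _ h1,
          ev_zpow hinf (hS.cm ha1 ha (hell _ hy₀))]
        have h3 : (M : ℚ) * (ev a y + -(k * ev a y₀)) = 0 := by
          have h4 : (z : ℚ) = k * m₀ := by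
            rw [← hk]; simp
          calc (M : ℚ) * (ev a y + -(k * ev a y₀)) = M * ev a y - k * (M * ev a y₀) := by ring
            _ = 0 := by rw [hz, hy₀m, h4]; ring
        exact (mul_eq_zero.mp h3).resolve_left hM'
      have h3 : y * (y₀ ^ k)⁻¹ = 1 := by
        by_contra hne
        exact hS.ev_ne_zero ha1 ha (hell _ (U.mul_mem hy (U.inv_mem h1))) hne h2
      exact (mul_inv_eq_one.mp h3).symm
    · rw [Subgroup.zpowers_le]; exact hy₀
  rw [key, Subgroup.fg_iff]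
  exact ⟨{y₀}, by rw [Subgroup.zpowers_eq_closure], Set.finite_singleton _⟩

end unions

end Pool.Agent.GBSFix
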