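import Pool.Agent.Lib.MP_2e9e4b_al.Modular

/-!
The case where the automorphism maps some non-trivial elliptic element to an element without
fixed vertex.
-/

namespace Pool.Agent.GBSFix

open SimpleGraph

variable {G : Type*} [Group G] {V : Type*} [MulAction G V] {T : SimpleGraph V}

lemma dist_pow_le (hA : Acts G T) (hT : T.Connected) (x : G) (v : V) (k : ℕ) :
    T.dist v (x ^ k • v) ≤ k * T.dist v (x • v) := by
  induction k with
  | zero => simp
  | succ k ih =>
    have h1 : T.dist v (x ^ (k + 1) • v) ≤ T.dist v (x ^ k • v) +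
        T.dist (x ^ k • v) (x ^ (k + 1) • v) := hT.dist_triangle
    have h2 : T.dist (x ^ k • v) (x ^ (k + 1) • v) = T.dist v (x • v) := by
      rw [pow_succ, mul_smul, hA.dist_smul hT]
    rw [h2] at h1
    calc _ ≤ _ := h1
      _ ≤ k * T.dist v (x • v) + T.dist v (x • v) := by omega
      _ = _ := by ring

lemma dist_zpow_le (hA : Acts G T) (hT : T.Connected) (x : G) (v : V) (k : ℤ) :
    T.dist v (x ^ k • v) ≤ k.natAbs * T.dist v (x • v) := by
  obtain ⟨m, rfl | rfl⟩ := k.eq_nat_or_neg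
  · simpa using dist_pow_le hA hT x v m
  · have h1 : T.dist v (x ^ (-(m : ℤ)) • v) = T.dist v (x ^ m • v) := by
      rw [← hA.dist_smul hT (x ^ m) v (x ^ (-(m : ℤ)) • v), zpow_neg, zpow_natCast, smul_inv_smul,
        dist_comm]
    rw [h1, Int.natAbs_neg, Int.natAbs_natCast]
    exact dist_pow_le hA hT x v m

variable (T) in
/-- minimal displacement of `x ^ j` -/
noncomputable def minDisp (x : G) (j : ℤ) : ℕ := sInf (Set.range fun v : V => T.dist v (x ^ j • v))

lemma minDisp_conj (hA : Acts G T) (hT : T.Connected) {x g : G} {m n : ℤ}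
    (h : g * x ^ m * g⁻¹ = x ^ n) (z : ℤ) : minDisp T x (m * z) = minDisp T x (n * z) := by
  have key : ∀ v : V, T.dist v (x ^ (n * z) • v) =
      T.dist (g⁻¹ • v) (x ^ (m * z) • g⁻¹ • v) := by
    intro v
    have h1 : x ^ (n * z) = g * x ^ (m * z) * g⁻¹ := by
      rw [zpow_mul, ← h, conj_zpow, ← zpow_mul]
    rw [h1, ← hA.dist_smul hT g⁻¹ v]
    congr 1
    simp only [← mul_smul]
    congr 1
    group
  unfold minDisp
  congr 1
  ext d
  constructor
  · rintro ⟨v, rfl⟩
    refine ⟨g • v, ?_⟩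
    simp only [key]
    rw [inv_smul_smul]
  · rintro ⟨v, rfl⟩
    refine ⟨g⁻¹ • v, ?_⟩
    simp only [key]

lemma minDisp_pow (hA : Acts G T) (hT : T.Connected) {x g : G} {m n : ℤ}
    (h : g * x ^ m * g⁻¹ = x ^ n) (k : ℕ) :
    ∀ z : ℤ, minDisp T x (m ^ k * z) = minDisp T x (n ^ k * z) := by
  induction k with
  | zero => intro z; simp
  | succ k ih =>
    intro z
    calc minDisp T x (m ^ (k + 1) * z) = minDisp T x (m ^ k * (m * z)) := by ring_nf
      _ = minDisp T x (n ^ k * (m * z)) := ih _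
      _ = minDisp T x (m * (n ^ k * z)) := by ring_nf
      _ = minDisp T x (n * (n ^ k * z)) := minDisp_conj hA hT h _
      _ = minDisp T x (n ^ (k + 1) * z) := by ring_nf

lemma natAbs_le_of_conj (hA : Acts G T) (hI : NoInv G T) (hT : T.IsTree) {x g : G}
    (hx : ∀ v : V, x • v ≠ v) {m n : ℤ} (hm : m ≠ 0)
    (h : g * x ^ m * g⁻¹ = x ^ n) : n.natAbs ≤ m.natAbs := by
  obtain ⟨v₀⟩ := hT.connected.nonempty
  set C := T.dist v₀ (x • v₀) with hC
  have lower : ∀ j : ℤ, j.natAbs ≤ minDisp T x j := by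
    intro j
    have hne : (Set.range fun v : V => T.dist v (x ^ j • v)).Nonempty := ⟨_, v₀, rfl⟩
    obtain ⟨v, hv⟩ := Nat.sInf_mem hne
    have h1 := abs_le_dist_zpow hA hI hT hx v j
    simp only at hv
    unfold minDisp
    rw [← hv]
    rw [Int.abs_eq_natAbs] at h1
    exact_mod_cast h1
  have upper : ∀ j : ℤ, minDisp T x j ≤ j.natAbs * C := by
    intro j
    exact le_trans (Nat.sInf_le ⟨v₀, rfl⟩) (dist_zpow_le hA hT.connected x v₀ j)
  by_contra hcon
  push Not at hcon
  have hm' : 0 < m.natAbs := Int.natAbs_pos.mpr hm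
  have key : ∀ k : ℕ, (n.natAbs : ℝ) ^ k ≤ (m.natAbs : ℝ) ^ k * C := by
    intro k
    have h1 := lower (n ^ k * 1)
    rw [← minDisp_pow hA hT.connected h k 1] at h1
    have h2 := le_trans h1 (upper _)
    rw [mul_one, mul_one, Int.natAbs_pow, Int.natAbs_pow] at h2
    exact_mod_cast h2
  have hm'' : (0 : ℝ) < m.natAbs := by exact_mod_cast hm'
  have h1 : 1 < (n.natAbs : ℝ) / m.natAbs := by
    rw [one_lt_div hm'']
    exact_mod_cast hcon
  obtain ⟨k, hk⟩ := pow_unbounded_of_one_lt (C : ℝ) h1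
  have h2 := key k
  rw [div_pow, lt_div_iff₀ (by positivity)] at hk
  linarith [mul_comm ((m.natAbs : ℝ) ^ k) (C : ℝ)]

lemma natAbs_eq_of_conj (hA : Acts G T) (hI : NoInv G T) (hT : T.IsTree) {x g : G}
    (hx : ∀ v : V, x • v ≠ v) {m n : ℤ} (hm : m ≠ 0) (hn : n ≠ 0)
    (h : g * x ^ m * g⁻¹ = x ^ n) : n.natAbs = m.natAbs := by
  apply le_antisymm (natAbs_le_of_conj hA hI hT hx hm h)
  refine natAbs_le_of_conj hA hI hT hx (g := g⁻¹) hn ?_
  rw [← h]; group

/-- `g y g⁻¹ = y ^ {±1}` -/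
def PM (y g : G) : Prop := g * y * g⁻¹ = y ∨ g * y * g⁻¹ = y⁻¹

lemma PM.zpow {y g : G} (h : PM y g) (k : ℤ) : PM (y ^ k) g := by
  rcases h with h | h
  · left; rw [← conj_zpow, h]
  · right; rw [← conj_zpow, h, inv_zpow]

lemma PM.mul {y g h : G} (h1 : PM y g) (h2 : PM y h) : PM y (g * h) := by
  have e : g * h * y * (g * h)⁻¹ = g * (h * y * h⁻¹) * g⁻¹ := by group
  have e' : g * y⁻¹ * g⁻¹ = (g * y * g⁻¹)⁻¹ := by group
  unfold PM
  rw [e]
  rcases h1 with h1 | h1 <;> rcases h2 with h2 | h2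
  · left; rw [h2, h1]
  · right; rw [h2, e', h1]
  · right; rw [h2, h1]
  · left; rw [h2, e', h1, inv_inv]

lemma PM.inv {y g : G} (h : PM y g) : PM y g⁻¹ := by
  rcases h with h | h
  · left
    conv_lhs => rw [← h]
    group
  · right
    have : y⁻¹ = g⁻¹ * y * g⁻¹⁻¹ := by
      have h2 : y = (g * y * g⁻¹)⁻¹ := by rw [h, inv_inv]
      conv_rhs => rw [h2]
      group
    exact this.symm

lemma exists_common_power {x : G} (S : Set G) (hS : S.Finite)
    (h : ∀ g ∈ S, ∃ m : ℤ, m ≠ 0 ∧ PM (x ^ m) g) : ∃ M : ℤ, M ≠ 0 ∧ ∀ g ∈ S, PM (x ^ M) g := by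
  induction S, hS using Set.Finite.induction_on with
  | empty => exact ⟨1, one_ne_zero, by simp⟩
  | @insert b S _ _ ih =>
    obtain ⟨M, hM, hM'⟩ := ih (fun g hg => h g (Set.mem_insert_of_mem _ hg))
    obtain ⟨m, hm, hm'⟩ := h b (Set.mem_insert _ _)
    refine ⟨M * m, mul_ne_zero hM hm, ?_⟩
    rintro g (rfl | hg)
    · rw [mul_comm, zpow_mul]; exact hm'.zpow M
    · rw [zpow_mul]; exact (hM' g hg).zpow m

theorem IsGBSSystem.fixed_fg_caseB (hS : IsGBSSystem G T) {a : G} (ha1 : a ≠ 1)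
    (ha : ∃ v : V, a • v = v) (φ : G ≃* G) (hφ : ∀ v : V, φ a • v ≠ v) :
    (fixedSubgroup φ).FG := by
  have hA := hS.acts
  have hI := hS.noInv
  have hT := hS.isTree
  set x := φ a with hx
  -- conjugates of powers of `x`
  have h1 : ∀ g : G, ∃ m : ℤ, m ≠ 0 ∧ PM (x ^ m) g := by
    intro g
    obtain ⟨m, n, hm, hmn⟩ := hS.allCm ha1 ha (φ.symm g)
    have hn : n ≠ 0 := by
      rintro rfl
      have h2 := hS.infOrd (fixed_conj (g := φ.symm g) ha) (by
        intro h3
        apply ha1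
        have : a = (φ.symm g)⁻¹ * (φ.symm g * a * (φ.symm g)⁻¹) * φ.symm g := by group
        rw [this, h3]; group) m (by simpa using hmn)
      exact hm h2
    have h2 : g * x ^ m * g⁻¹ = x ^ n := by
      have := congrArg φ hmn
      simpa [hx] using this
    have h3 := natAbs_eq_of_conj hA hI hT hφ hm hn h2
    refine ⟨m, hm, ?_⟩
    rcases Int.natAbs_eq_natAbs_iff.mp h3 with h4 | h4
    · left; rw [h2, h4]
    · right; rw [h2, h4, zpow_neg]
  obtain ⟨S, hSgen, hSfin⟩ := Group.fg_iff.mp hS.fg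
  obtain ⟨M, hM, hMS⟩ := exists_common_power (x := x) S hSfin (fun g _ => h1 g)
  set y := x ^ M with hy
  have hPM : ∀ g : G, PM y g := by
    intro g
    have hg : g ∈ Subgroup.closure S := by rw [hSgen]; trivial
    induction hg using Subgroup.closure_induction with
    | mem g hg => exact hMS g hg
    | one => left; simp
    | mul g h _ _ hg hh => exact hg.mul hh
    | inv g _ hg => exact hg.inv
  have hynf : ∀ v : V, y • v ≠ v := by
    intro v hv
    obtain ⟨w, hw⟩ := exists_fixed_of_zpow hA hI hT hM ⟨v, hv⟩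
    exact hφ w hw
  -- elements of `Fix φ` with a fixed vertex are trivial
  have hfree : ∀ k ∈ fixedSubgroup φ, ∀ v : V, k • v = v → k = 1 := by
    intro k hk v hkv
    by_contra hk1
    obtain ⟨i, j, hi, hij⟩ := hS.cm ha1 ha ⟨v, hkv⟩
    have hj : j ≠ 0 := by
      rintro rfl
      rw [zpow_zero] at hij
      exact hi (hS.infOrd ⟨v, hkv⟩ hk1 i hij)
    have h2 : x ^ j = k ^ i := by
      have h3 := congrArg φ hij
      rw [map_zpow, map_zpow, show φ k = k from hk] at h3
      exact h3.symm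
    have h4 : x ^ j • v = v := by
      rw [h2]
      have : k ∈ MulAction.stabilizer G v := hkv
      exact (MulAction.stabilizer G v).zpow_mem this i
    obtain ⟨w, hw⟩ := exists_fixed_of_zpow hA hI hT hj ⟨v, h4⟩
    exact hφ w hw
  -- the subgroup commuting with `y`
  set K' : Subgroup G := fixedSubgroup φ ⊓ Subgroup.centralizer {y} with hK'
  have hK'fg : K'.FG := by
    refine fg_of_flow hA hT K' (fun v => y • v) ?_ ∅ Set.finite_empty ?_ ?_
    · intro k hk v
      have h2 : k * y = y * k := (Subgroup.mem_centralizer_singleton_iff.mp hk.2)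
      simp only [← mul_smul, h2]
    · intro v w hvw h2 h3
      exfalso
      rcases nxt_or_of_no_fixed hA hT hynf hvw with h4 | h4
      · exact h2 h4
      · exact h3 h4
    · intro s _
      refine ⟨⊥, Subgroup.FG.bot, ?_⟩
      intro k
      rw [Subgroup.mem_bot]
      constructor
      · rintro rfl
        exact ⟨K'.one_mem, 0, by simp⟩
      · rintro ⟨hk, i, hi⟩
        exact hfree k hk.1 _ hi
  by_cases hex : ∃ k₀ ∈ fixedSubgroup φ, k₀ * y * k₀⁻¹ ≠ y
  · obtain ⟨k₀, hk₀, hk₀y⟩ := hex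
    have e0 : k₀ * y * k₀⁻¹ = y⁻¹ := (hPM k₀).resolve_left hk₀y
    have : fixedSubgroup φ = K' ⊔ Subgroup.zpowers k₀ := by
      apply le_antisymm
      · intro k hk
        by_cases hky : k * y * k⁻¹ = y
        · refine (le_sup_left : K' ≤ _) (Subgroup.mem_inf.mpr ⟨hk, ?_⟩)
          rw [Subgroup.mem_centralizer_singleton_iff]
          conv_rhs => rw [← hky]
          group
        · have e1 : k * y * k⁻¹ = y⁻¹ := (hPM k).resolve_left hky
          have e2 : k₀⁻¹ * k ∈ K' := by
            refine Subgroup.mem_inf.mpr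
              ⟨(fixedSubgroup φ).mul_mem ((fixedSubgroup φ).inv_mem hk₀) hk, ?_⟩
            rw [Subgroup.mem_centralizer_singleton_iff]
            have e3 : k * y = y⁻¹ * k := by rw [← e1]; group
            have e4 : k₀⁻¹ * y⁻¹ = y * k₀⁻¹ := by rw [← e0]; group
            calc k₀⁻¹ * k * y = k₀⁻¹ * (k * y) := by group
              _ = (k₀⁻¹ * y⁻¹) * k := by rw [e3]; group
              _ = y * (k₀⁻¹ * k) := by rw [e4]; group
          have e5 : k = k₀ * (k₀⁻¹ * k) := by group
          rw [e5]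
          exact Subgroup.mul_mem _
            ((le_sup_right : Subgroup.zpowers k₀ ≤ _) (Subgroup.mem_zpowers k₀))
            ((le_sup_left : K' ≤ _) e2)
      · refine sup_le inf_le_left ?_
        rw [Subgroup.zpowers_le]
        exact hk₀
    rw [this]
    refine Subgroup.FG.sup hK'fg ?_
    rw [Subgroup.fg_iff]
    exact ⟨{k₀}, by rw [Subgroup.zpowers_eq_closure], Set.finite_singleton _⟩
  · push Not at hex
    have : fixedSubgroup φ = K' := by
      apply le_antisymm _ inf_le_left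
      intro k hk
      refine Subgroup.mem_inf.mpr ⟨hk, ?_⟩
      rw [Subgroup.mem_centralizer_singleton_iff]
      have := hex k hk
      conv_rhs => rw [← this]
      group
    rw [this]
    exact hK'fg

end Pool.Agent.GBSFix
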