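import Pool.Agent.Lib.MP_2e9e4b_al.Modular

/-!
Existence of a crossed homomorphism `Θ : G → ℚ` (for the action through the modular
homomorphism) restricting to the exponent on every vertex stabiliser.
-/

namespace Pool.Agent.GBSFix

open SimpleGraph

variable {G : Type*} [Group G] {V : Type*} [MulAction G V] {T : SimpleGraph V}

/-- auxiliary function for integrating an edge function on a rooted tree -/
noncomputable def potAux (par : V → V) (D : V → V → ℚ) : ℕ → V → ℚ
  | 0, _ => 0
  | n + 1, x => potAux par D n (par x) + D (par x) x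

lemma exists_potential (hT : T.IsTree) (D : V → V → ℚ)
    (hD : ∀ x y, T.Adj x y → D y x = - D x y) :
    ∃ P : V → ℚ, ∀ x y, T.Adj x y → P y - P x = D x y := by
  obtain ⟨v₀⟩ := hT.connected.nonempty
  set par : V → V := fun x => nxt T x v₀ with hpar
  refine ⟨fun x => potAux par D (T.dist x v₀) x, ?_⟩
  have key : ∀ x y, Nxt T y x v₀ →
      potAux par D (T.dist y v₀) y - potAux par D (T.dist x v₀) x = D x y := by
    intro x y h
    have h1 : par y = x := nxt_eq hT h
    rw [h.2, potAux, h1]
    ring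
  intro x y hxy
  rcases nxt_or_nxt hT hxy v₀ with h | h
  · have := key y x h
    rw [hD x y hxy] at this
    simp only at this ⊢
    linarith
  · exact key x y h

/-- orbit representative and connecting element -/
lemma exists_section (G : Type*) [Group G] (W : Type*) [MulAction G W] :
    ∃ (r : W → W) (s : W → G), (∀ w, s w • r w = w) ∧ (∀ (g : G) (w : W), r (g • w) = r w) := by
  classical
  have h : ∀ w : W, ∃ g : G, g • (Quotient.mk (MulAction.orbitRel G W) w).out = w := by
    intro w
    have := Quotient.mk_out (s := MulAction.orbitRel G W) w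
    obtain ⟨g, hg⟩ := (MulAction.orbitRel G W).symm this
    exact ⟨g, hg⟩
  choose s hs using h
  refine ⟨fun w => (Quotient.mk (MulAction.orbitRel G W) w).out, s, hs, ?_⟩
  intro g w
  have : Quotient.mk (MulAction.orbitRel G W) (g • w) = Quotient.mk (MulAction.orbitRel G W) w := by
    rw [Quotient.eq]
    exact ⟨g, rfl⟩
  simp only [this]

theorem IsGBSSystem.exists_cocycle (hS : IsGBSSystem G T) {a : G} (ha1 : a ≠ 1)
    (ha : ∃ v : V, a • v = v) :
    ∃ Θ : G → ℚ, (∀ g h, Θ (g * h) = Θ g + mu a g * Θ h) ∧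
      (∀ x : G, (∃ v : V, x • v = v) → Θ x = ev a x) := by
  have hinf := hS.infOrd ha ha1
  have hall := hS.allCm ha1 ha
  have hmul := mu_mul hinf hall
  have hell : ∀ {x : G} {v : V}, x • v = v → mu a x = 1 := fun h => hS.mu_elliptic ha1 ha ⟨_, h⟩
  obtain ⟨r, s, hs, hr⟩ := exists_section G V
  -- the elements `s_{gv}⁻¹ g s_v`
  have hA : ∀ (g : G) (v : V), ((s (g • v))⁻¹ * g * s v) • r v = r v := by
    intro g v
    rw [mul_smul, mul_smul, hs, inv_smul_eq_iff]
    conv_rhs => rw [← hr g v, hs]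
  set τ : G → V → ℚ := fun g v => mu a (s (g • v)) * ev a ((s (g • v))⁻¹ * g * s v) with hτ
  have hτmul : ∀ (g h : G) (v : V), τ (g * h) v = τ g (h • v) + mu a g * τ h v := by
    intro g h v
    simp only [hτ]
    have e1 : (s ((g * h) • v))⁻¹ * (g * h) * s v =
        ((s (g • h • v))⁻¹ * g * s (h • v)) * ((s (h • v))⁻¹ * h * s v) := by
      rw [mul_smul]; group
    have f1 := hA g (h • v)
    rw [hr h v] at f1
    have f2 := hA h v
    rw [e1, hS.ev_mul ha1 ha f1 f2, mul_smul]
    have e2 : mu a (s (g • h • v)) = mu a g * mu a (s (h • v)) := by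
      have := hell f1
      rw [hmul, hmul, mu_inv hinf hall] at this
      have hne := mu_ne_zero hinf hall (s (g • h • v))
      field_simp at this
      linarith
    rw [mul_add, e2]
    ring
  have hτell : ∀ (x : G) (v : V), x • v = v → τ x v = ev a x := by
    intro x v hx
    simp only [hτ]
    rw [hx]
    have h1 : (s v)⁻¹ * x * s v = (s v)⁻¹ * x * (s v)⁻¹⁻¹ := by rw [inv_inv]
    rw [h1, (ev_conj hinf hall (s v)⁻¹ (hS.cm ha1 ha ⟨v, hx⟩)).2, mu_inv hinf hall,
      ← mul_assoc, mul_inv_cancel₀ (mu_ne_zero hinf hall _), one_mul]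
  obtain ⟨r2, s2, hs2, hr2⟩ := exists_section G (V × V)
  set D' : V × V → ℚ := fun p => τ (s2 p) (r2 p).2 - τ (s2 p) (r2 p).1 with hD'
  have hD'eq : ∀ (h : G) (p : V × V), D' (h • p) = τ h p.2 - τ h p.1 + mu a h * D' p := by
    intro h p
    have hx : ((s2 (h • p))⁻¹ * h * s2 p) • r2 p = r2 p := by
      rw [mul_smul, mul_smul, hs2, inv_smul_eq_iff]
      conv_rhs => rw [← hr2 h p, hs2]
    set x := (s2 (h • p))⁻¹ * h * s2 p with hxdef
    have hx1 : x • (r2 p).1 = (r2 p).1 := congrArg Prod.fst hx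
    have hx2 : x • (r2 p).2 = (r2 p).2 := congrArg Prod.snd hx
    have e1 : h * s2 p = s2 (h • p) * x := by rw [hxdef]; group
    have e2 : s2 p • (r2 p).1 = p.1 := congrArg Prod.fst (hs2 p)
    have e3 : s2 p • (r2 p).2 = p.2 := congrArg Prod.snd (hs2 p)
    have g1 := hτmul h (s2 p) (r2 p).1
    have g2 := hτmul h (s2 p) (r2 p).2
    have g3 := hτmul (s2 (h • p)) x (r2 p).1
    have g4 := hτmul (s2 (h • p)) x (r2 p).2
    rw [e1] at g1 g2
    rw [hx1, hτell x _ hx1, g1, e2] at g3
    rw [hx2, hτell x _ hx2, g2, e3] at g4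
    simp only [hD', hr2]
    linarith
  obtain ⟨P, hP⟩ := exists_potential hS.isTree (fun v w => (D' (v, w) - D' (w, v)) / 2)
    (by intro x y _; ring)
  have hDeq : ∀ (h : G) (v w : V), (D' (h • v, h • w) - D' (h • w, h • v)) / 2 =
      τ h w - τ h v + mu a h * ((D' (v, w) - D' (w, v)) / 2) := by
    intro h v w
    have h1 := hD'eq h (v, w)
    have h2 := hD'eq h (w, v)
    rw [Prod.smul_mk] at h1 h2
    rw [h1, h2]
    ring
  have hconst : ∀ (g : G) (v w : V),
      τ g v + mu a g * P v - P (g • v) = τ g w + mu a g * P w - P (g • w) := by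
    intro g v w
    obtain ⟨p⟩ := hS.isTree.connected.preconnected v w
    induction p with
    | nil => rfl
    | @cons u v' _ hadj _ ih =>
      rw [← ih]
      have h1 := hP _ _ hadj
      have h2 := hP _ _ (hS.adj_smul g _ _ hadj)
      have h3 := hDeq g u v'
      rw [← h1] at h3
      rw [h3] at h2
      linarith
  obtain ⟨v₀⟩ := hS.isTree.connected.nonempty
  refine ⟨fun g => τ g v₀ + mu a g * P v₀ - P (g • v₀), ?_, ?_⟩
  · intro g h
    simp only
    rw [hconst g v₀ (h • v₀), hτmul, hmul, mul_smul]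
    ring
  · rintro x ⟨v, hv⟩
    simp only
    rw [hconst x v₀ v, hv, hell hv, hτell x v hv]
    ring

end Pool.Agent.GBSFix
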