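import Mathlib

/-!
# Generalised Baumslag-Solitar systems

Definitions used in the statement of the main theorem.
-/

namespace Pool.Agent.GBSFix

open SimpleGraph

/-- A subgroup is infinite cyclic. -/
def InfiniteCyclic {G : Type*} [Group G] (H : Subgroup G) : Prop := IsCyclic H ∧ Infinite H

/-- Two edges of `T` are equivalent if some element of `G` maps one to the other. -/
def edgeSetoid (G : Type*) [Group G] {V : Type*} [MulAction G V] (T : SimpleGraph V) :
    Setoid T.edgeSet where
  r e e' := ∃ g : G, (e : Sym2 V).map (fun x => g • x) = e'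
  iseqv :=
    { refl := fun e => ⟨1, by simp⟩
      symm := by
        rintro e e' ⟨g, hg⟩
        refine ⟨g⁻¹, ?_⟩
        rw [← hg, Sym2.map_map]
        have : ((fun x : V => g⁻¹ • x) ∘ fun x => g • x) = id := by
          funext x; simp
        rw [this, Sym2.map_id, id]
      trans := by
        rintro e e' e'' ⟨g, hg⟩ ⟨h, hh⟩
        refine ⟨h * g, ?_⟩
        rw [← hh, ← hg, Sym2.map_map]
        congr 1
        funext x; simp [mul_smul] }

/-- The set `V(T/G)` of vertices of the quotient graph. -/
abbrev VertexOrbits (G : Type*) [Group G] (V : Type*) [MulAction G V] : Type _ :=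
  MulAction.orbitRel.Quotient G V

/-- The set `E(T/G)` of (unoriented) edges of the quotient graph. -/
abbrev EdgeOrbits (G : Type*) [Group G] {V : Type*} [MulAction G V] (T : SimpleGraph V) : Type _ :=
  Quotient (edgeSetoid G T)

/-- A GBS system: a finitely generated group `G` acting by automorphisms and without inversions
on a simplicial tree `T`, with finite quotient graph `T/G`, such that every vertex stabiliser and
every edge stabiliser is infinite cyclic. -/
structure IsGBSSystem (G : Type*) [Group G] {V : Type*} [MulAction G V] (T : SimpleGraph V) :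
    Prop where
  fg : Group.FG G
  isTree : T.IsTree
  adj_smul : ∀ (g : G) (x y : V), T.Adj x y → T.Adj (g • x) (g • y)
  no_inversion : ∀ (g : G) (x y : V), T.Adj x y → g • x = y → g • y ≠ x
  finite_vertices : Finite (VertexOrbits G V)
  finite_edges : Finite (EdgeOrbits G T)
  vertex_stabilizer : ∀ x : V, InfiniteCyclic (MulAction.stabilizer G x)
  edge_stabilizer : ∀ x y : V, T.Adj x y →
    InfiniteCyclic (MulAction.stabilizer G x ⊓ MulAction.stabilizer G y)

/-- The first Betti number `1 - |V(T/G)| + |E(T/G)|` of the quotient graph. -/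
noncomputable def betti (G : Type*) [Group G] {V : Type*} [MulAction G V] (T : SimpleGraph V) : ℤ :=
  1 - Nat.card (VertexOrbits G V) + Nat.card (EdgeOrbits G T)

/-- The image `Δ(G) ⊆ ℚ` of the modular homomorphism, computed with the elliptic element `a`:
the set of all quotients `m / n` where `m, n` are non-zero integers with
`g * a ^ m * g⁻¹ = a ^ n` for some `g`. -/
def modulus {G : Type*} [Group G] (a : G) : Set ℚ :=
  {q | ∃ (g : G) (m n : ℤ), m ≠ 0 ∧ n ≠ 0 ∧ g * a ^ m * g⁻¹ = a ^ n ∧ q = (m : ℚ) / n}

/-- The multiplicative group `⟨n⟩ = {n ^ k : k ∈ ℤ}` generated by `n`, as a set of rationals. -/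
def powersOf (n : ℤ) : Set ℚ := {q | ∃ k : ℤ, q = (n : ℚ) ^ k}

/-- `Fix φ = {g : φ g = g}`. -/
def fixedSubgroup {G : Type*} [Group G] (φ : G ≃* G) : Subgroup G where
  carrier := {g | φ g = g}
  one_mem' := map_one φ
  mul_mem' := by
    intro a b ha hb
    simp only [Set.mem_ofPred_eq] at *
    rw [map_mul, ha, hb]
  inv_mem' := by
    intro a ha
    simp only [Set.mem_ofPred_eq] at *
    rw [map_inv, ha]

end Pool.Agent.GBSFix
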