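import Pool.Agent.Lib.MP_2e9e4b_al.Tree

/-!
A general finite generation criterion for a subgroup `K` acting on a tree together with a
`K`-equivariant self-map of the vertex set (after Goldstein and Turner).
-/

namespace Pool.Agent.GBSFix

open SimpleGraph

variable {G : Type*} [Group G] {V : Type*} [MulAction G V] {T : SimpleGraph V}

/-- `G` acts on the graph `T` by automorphisms. -/
def Acts (G : Type*) [Group G] {V : Type*} [MulAction G V] (T : SimpleGraph V) : Prop :=
  ∀ (g : G) (x y : V), T.Adj x y → T.Adj (g • x) (g • y)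

lemma Acts.adj_iff (hA : Acts G T) (g : G) {x y : V} : T.Adj (g • x) (g • y) ↔ T.Adj x y := by
  refine ⟨fun h => ?_, hA g x y⟩
  have := hA g⁻¹ _ _ h
  simpa using this

/-- the automorphism of `T` given by `g`. -/
def Acts.iso (hA : Acts G T) (g : G) : T ≃g T where
  toEquiv := MulAction.toPerm g
  map_rel_iff' := by
    intro a b
    simpa using hA.adj_iff g

lemma Acts.dist_smul (hA : Acts G T) (hT : T.Connected) (g : G) (x y : V) :
    T.dist (g • x) (g • y) = T.dist x y := by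
  have key : ∀ (g : G) (x y : V), T.dist (g • x) (g • y) ≤ T.dist x y := by
    intro g x y
    obtain ⟨w, hw⟩ := hT.exists_walk_length_eq_dist x y
    rw [← hw]
    have := dist_le (w.map (hA.iso g).toHom)
    rw [Walk.length_map] at this
    exact this
  apply le_antisymm (key g x y)
  have := key g⁻¹ (g • x) (g • y)
  simpa using this

lemma Acts.nxt_smul (hA : Acts G T) (hT : T.Connected) (g : G) {x y p : V} :
    Nxt T (g • x) (g • y) (g • p) ↔ Nxt T x y p := by
  unfold Nxt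
  rw [hA.adj_iff g, hA.dist_smul hT, hA.dist_smul hT]

lemma Acts.nxt_fun_smul (hA : Acts G T) (hT : T.IsTree) (g : G) (x p : V) :
    nxt T (g • x) (g • p) = g • nxt T x p := by
  by_cases h : x = p
  · subst h
    rw [nxt_self, nxt_self]
  · exact nxt_eq hT ((hA.nxt_smul hT.connected g).mpr (nxt_spec hT h))

section generation

/-- the stabiliser in `K` of the class of `x`. -/
def classStab (K : Subgroup G) (R : V → V → Prop) (hR : Equivalence R)
    (hinv : ∀ k ∈ K, ∀ x y, R x y → R (k • x) (k • y)) (x : V) : Subgroup G where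
  carrier := {k | k ∈ K ∧ R x (k • x)}
  one_mem' := ⟨K.one_mem, by simpa using hR.refl x⟩
  mul_mem' := by
    rintro a b ⟨ha, ha'⟩ ⟨hb, hb'⟩
    refine ⟨K.mul_mem ha hb, ?_⟩
    rw [mul_smul]
    exact hR.trans ha' (hinv a ha _ _ hb')
  inv_mem' := by
    rintro a ⟨ha, ha'⟩
    refine ⟨K.inv_mem ha, ?_⟩
    have := hinv a⁻¹ (K.inv_mem ha) _ _ ha'
    simp only [inv_smul_smul] at this
    exact hR.symm this

lemma fg_of_blocks (hT : T.Connected) (K : Subgroup G) (R : V → V → Prop)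
    (hR : Equivalence R) (hinv : ∀ k ∈ K, ∀ x y, R x y → R (k • x) (k • y))
    (F : Set (V × V)) (hF : F.Finite)
    (hcov : ∀ x y, T.Adj x y → ¬ R x y → ∃ k ∈ K, ∃ d ∈ F, x = k • d.1 ∧ y = k • d.2)
    (hstab : ∀ x, (classStab K R hR hinv x).FG) : K.FG := by
  classical
  obtain ⟨x₀⟩ := hT.nonempty
  set D : Set V := insert x₀ ((Prod.fst '' F) ∪ (Prod.snd '' F)) with hD
  have hDfin : D.Finite := ((hF.image _).union (hF.image _)).insert x₀
  -- connecting elements
  set c : V → V → G := fun d d' => if h : ∃ k ∈ K, R (k • d) d' then h.choose else 1 with hc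
  have hcK : ∀ d d', c d d' ∈ K := by
    intro d d'
    simp only [hc]
    split_ifs with h
    · exact h.choose_spec.1
    · exact K.one_mem
  have hcR : ∀ d d', (∃ k ∈ K, R (k • d) d') → R (c d d' • d) d' := by
    intro d d' h
    simp only [hc]
    rw [dif_pos h]
    exact h.choose_spec.2
  set K' : Subgroup G := (⨆ d : D, classStab K R hR hinv (d : V)) ⊔
    Subgroup.closure ((fun p : V × V => c p.1 p.2) '' (D ×ˢ D)) with hK'
  have hK'fg : K'.FG := by
    refine Subgroup.FG.sup ?_ ?_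
    · have : Finite D := hDfin
      exact Subgroup.FG.iSup _ fun d => hstab _
    · rw [Subgroup.fg_iff]
      exact ⟨_, rfl, (hDfin.prod hDfin).image _⟩
  have hst : ∀ d ∈ D, classStab K R hR hinv d ≤ K' := by
    intro d hd
    refine le_trans ?_ le_sup_left
    exact le_iSup (fun d : D => classStab K R hR hinv (d : V)) ⟨d, hd⟩
  have hcc : ∀ d ∈ D, ∀ d' ∈ D, c d d' ∈ K' := by
    intro d hd d' hd'
    refine (le_sup_right : _ ≤ K') (Subgroup.subset_closure ⟨(d, d'), ⟨hd, hd'⟩, rfl⟩)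
  have hK'K : K' ≤ K := by
    refine sup_le (iSup_le fun d => fun k hk => hk.1) ?_
    rw [Subgroup.closure_le]
    rintro _ ⟨p, _, rfl⟩
    exact hcK _ _
  -- key step
  have step : ∀ k ∈ K, ∀ k' ∈ K', ∀ d ∈ D, ∀ d' ∈ D, R (k • d) (k' • d') → k ∈ K' := by
    intro k hk k' hk' d hd d' hd' h
    have h1 : R ((k'⁻¹ * k) • d) d' := by
      have := hinv k'⁻¹ (K.inv_mem (hK'K hk')) _ _ h
      simpa [mul_smul] using this
    have h2 : R (c d d' • d) d' := hcR _ _ ⟨_, K.mul_mem (K.inv_mem (hK'K hk')) hk, h1⟩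
    have h3 : R (c d d' • d) ((k'⁻¹ * k) • d) := hR.trans h2 (hR.symm h1)
    have h4 := hinv (c d d')⁻¹ (K.inv_mem (hcK _ _)) _ _ h3
    have h5 : (c d d')⁻¹ * (k'⁻¹ * k) ∈ classStab K R hR hinv d := by
      refine ⟨K.mul_mem (K.inv_mem (hcK _ _)) (K.mul_mem (K.inv_mem (hK'K hk')) hk), ?_⟩
      simpa [mul_smul] using h4
    have h6 := hst d hd h5
    have h7 : k = k' * (c d d' * ((c d d')⁻¹ * (k'⁻¹ * k))) := by group
    rw [h7]
    exact K'.mul_mem hk' (K'.mul_mem (hcc d hd d' hd') h6)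
  have hx₀ : x₀ ∈ D := Set.mem_insert _ _
  clear_value D c K'
  have claim' : ∀ x y, T.Walk x y → y ∈ D → ∃ k' ∈ K', ∃ d ∈ D, R x (k' • d) := by
    intro x y w
    induction w with
    | nil => exact fun hy => ⟨1, K'.one_mem, _, hy, by simpa using hR.refl _⟩
    | @cons u v _ hadj _ ih =>
      intro hy
      obtain ⟨k', hk', d, hd, h⟩ := ih hy
      by_cases huv : R u v
      · exact ⟨k', hk', d, hd, hR.trans huv h⟩
      · obtain ⟨k, hk, e, he, rfl, rfl⟩ := hcov u v hadj huv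
        have he1 : e.1 ∈ D := hD ▸ Set.mem_insert_of_mem _ (Or.inl ⟨e, he, rfl⟩)
        have he2 : e.2 ∈ D := hD ▸ Set.mem_insert_of_mem _ (Or.inr ⟨e, he, rfl⟩)
        have : k ∈ K' := step k hk k' hk' e.2 he2 d hd h
        exact ⟨k, this, e.1, he1, hR.refl _⟩
  have claim : ∀ x, ∃ k' ∈ K', ∃ d ∈ D, R x (k' • d) := by
    intro x
    obtain ⟨w⟩ := hT.preconnected x x₀
    exact claim' x x₀ w hx₀
  have : K = K' := by
    apply le_antisymm _ hK'K
    intro k hk
    obtain ⟨k', hk', d, hd, h⟩ := claim (k • x₀)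
    exact step k hk k' hk' x₀ hx₀ d hd h
  rw [this]
  exact hK'fg

end generation

section flow

/-- forward orbits of `x` and `y` under `n` eventually merge. -/
def Mrg (n : V → V) (x y : V) : Prop := ∃ i j : ℕ, n^[i] x = n^[j] y

lemma mrg_equivalence (n : V → V) : Equivalence (Mrg n) where
  refl x := ⟨0, 0, rfl⟩
  symm := by
    rintro x y ⟨i, j, h⟩
    exact ⟨j, i, h.symm⟩
  trans := by
    rintro x y z ⟨i, j, h⟩ ⟨i', j', h'⟩
    refine ⟨i' + i, j + j', ?_⟩
    rw [Function.iterate_add_apply, h, ← Function.iterate_add_apply, Nat.add_comm i' j,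
      Function.iterate_add_apply, h', ← Function.iterate_add_apply]

lemma iterate_smul {n : V → V} {K : Subgroup G} (hn : ∀ k ∈ K, ∀ x, n (k • x) = k • n x)
    {k : G} (hk : k ∈ K) (i : ℕ) (x : V) : n^[i] (k • x) = k • n^[i] x := by
  induction i generalizing x with
  | zero => rfl
  | succ i ih => rw [Function.iterate_succ_apply, hn k hk, ih, Function.iterate_succ_apply]

lemma mrg_smul {n : V → V} {K : Subgroup G} (hn : ∀ k ∈ K, ∀ x, n (k • x) = k • n x) :
    ∀ k ∈ K, ∀ x y, Mrg n x y → Mrg n (k • x) (k • y) := by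
  rintro k hk x y ⟨i, j, h⟩
  exact ⟨i, j, by rw [iterate_smul hn hk, iterate_smul hn hk, h]⟩

/-- the shift relation: `n^[i] x = k • n^[j] x` with `i - j = m`. -/
def Shift (n : V → V) (x : V) (k : G) (m : ℤ) : Prop :=
  ∃ i j : ℕ, n^[i] x = k • n^[j] x ∧ (i : ℤ) - j = m

lemma Shift.mul {n : V → V} {K : Subgroup G} (hn : ∀ k ∈ K, ∀ x, n (k • x) = k • n x) {x : V}
    {k k' : G} (hk : k ∈ K) (hk' : k' ∈ K) {m m' : ℤ}
    (h : Shift n x k m) (h' : Shift n x k' m') : Shift n x (k * k') (m + m') := by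
  obtain ⟨i, j, h, rfl⟩ := h
  obtain ⟨i', j', h', rfl⟩ := h'
  refine ⟨i' + i, j + j', ?_, by push_cast; ring⟩
  rw [Function.iterate_add_apply, h, iterate_smul hn hk, ← Function.iterate_add_apply,
    Nat.add_comm i' j, Function.iterate_add_apply, h', iterate_smul hn hk',
    ← Function.iterate_add_apply, mul_smul]

lemma Shift.inv {n : V → V} {x : V} {k : G} {m : ℤ}
    (h : Shift n x k m) : Shift n x k⁻¹ (-m) := by
  obtain ⟨i, j, h, rfl⟩ := h
  refine ⟨j, i, ?_, by ring⟩
  rw [h, inv_smul_smul]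

lemma Shift.one {n : V → V} {x : V} : Shift n x (1 : G) 0 := ⟨0, 0, by simp, by simp⟩

lemma Shift.pow {n : V → V} {K : Subgroup G} (hn : ∀ k ∈ K, ∀ x, n (k • x) = k • n x) {x : V}
    {k : G} (hk : k ∈ K) {m : ℤ} (h : Shift n x k m) (s : ℕ) : Shift n x (k ^ s) (s * m) := by
  induction s with
  | zero => simpa using Shift.one
  | succ s ih =>
    rw [pow_succ]
    have := Shift.mul hn (K.pow_mem hk s) hk ih h
    convert this using 1
    push_cast; ring

lemma Shift.zpow {n : V → V} {K : Subgroup G} (hn : ∀ k ∈ K, ∀ x, n (k • x) = k • n x) {x : V}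
    {k : G} (hk : k ∈ K) {m : ℤ} (h : Shift n x k m) (s : ℤ) : Shift n x (k ^ s) (s * m) := by
  obtain ⟨s, rfl | rfl⟩ := s.eq_nat_or_neg
  · rw [zpow_natCast]
    exact_mod_cast Shift.pow hn hk h s
  · rw [zpow_neg, zpow_natCast, neg_mul]
    exact (Shift.pow hn hk h s).inv

lemma classStab_fg {n : V → V} (K : Subgroup G) (hn : ∀ k ∈ K, ∀ x, n (k • x) = k • n x) (x : V)
    (U : Subgroup G) (hUfg : U.FG)
    (hU : ∀ k, k ∈ U ↔ k ∈ K ∧ ∃ i : ℕ, k • n^[i] x = n^[i] x) :
    (classStab K (Mrg n) (mrg_equivalence n) (mrg_smul hn) x).FG := by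
  classical
  set B : AddSubgroup ℤ :=
    { carrier := {m | ∃ k ∈ K, Shift n x k m}
      zero_mem' := ⟨1, K.one_mem, Shift.one⟩
      add_mem' := by
        rintro a b ⟨k, hk, h⟩ ⟨k', hk', h'⟩
        exact ⟨k * k', K.mul_mem hk hk', Shift.mul hn hk hk' h h'⟩
      neg_mem' := by
        rintro a ⟨k, hk, h⟩
        exact ⟨k⁻¹, K.inv_mem hk, h.inv⟩ } with hB
  obtain ⟨m₀, hm₀⟩ := Int.subgroup_cyclic B
  have hm₀B : m₀ ∈ B := by
    rw [hm₀]; exact AddSubgroup.subset_closure rfl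
  obtain ⟨k₀, hk₀, hs₀⟩ := hm₀B
  have hk₀' : k₀ ∈ classStab K (Mrg n) (mrg_equivalence n) (mrg_smul hn) x := by
    refine ⟨hk₀, ?_⟩
    obtain ⟨i, j, h, _⟩ := hs₀
    exact ⟨i, j, by rw [h, iterate_smul hn hk₀]⟩
  have hUle : U ≤ classStab K (Mrg n) (mrg_equivalence n) (mrg_smul hn) x := by
    intro k hk
    obtain ⟨h1, i, h2⟩ := (hU k).mp hk
    exact ⟨h1, i, i, by rw [iterate_smul hn h1, h2]⟩
  have key : classStab K (Mrg n) (mrg_equivalence n) (mrg_smul hn) x
      = U ⊔ Subgroup.zpowers k₀ := by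
    apply le_antisymm
    · rintro k ⟨hk, i, j, hij⟩
      rw [iterate_smul hn hk] at hij
      have hkB : ((i : ℤ) - j) ∈ B := ⟨k, hk, i, j, hij, rfl⟩
      rw [hm₀, AddSubgroup.mem_closure_singleton] at hkB
      obtain ⟨s, hs⟩ := hkB
      have h1 : Shift n x (k₀ ^ (-s)) (-s * m₀) := Shift.zpow hn hk₀ hs₀ (-s)
      have h2 : Shift n x (k₀ ^ (-s) * k) (-s * m₀ + (i - j)) :=
        Shift.mul hn (K.zpow_mem hk₀ _) hk h1 ⟨i, j, hij, rfl⟩
      have h3 : -s * m₀ + ((i : ℤ) - j) = 0 := by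
        rw [← hs]; simp
      rw [h3] at h2
      obtain ⟨i', j', h4, h5⟩ := h2
      have h6 : i' = j' := by omega
      subst h6
      have h7 : k₀ ^ (-s) * k ∈ U :=
        (hU _).mpr ⟨K.mul_mem (K.zpow_mem hk₀ _) hk, i', h4.symm⟩
      have h8 : k = k₀ ^ s * (k₀ ^ (-s) * k) := by
        rw [← mul_assoc, ← zpow_add]; simp
      rw [h8]
      exact Subgroup.mul_mem _
        ((le_sup_right : Subgroup.zpowers k₀ ≤ _) (Subgroup.zpow_mem _ (Subgroup.mem_zpowers k₀) s))
        ((le_sup_left : U ≤ _) h7)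
    · refine sup_le hUle ?_
      rw [Subgroup.zpowers_le]
      exact hk₀'
  rw [key]
  refine Subgroup.FG.sup hUfg ?_
  rw [Subgroup.fg_iff]
  exact ⟨{k₀}, by rw [Subgroup.zpowers_eq_closure], Set.finite_singleton _⟩

/-- **Finite generation criterion.**  Let `K` act on a tree and let `f` be a `K`-equivariant
self-map of the vertex set.  If modulo `K` there are only finitely many edges which are not the
first edge of the geodesic from one of their ends `x` to `f x`, and if ascending unions of vertex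
stabilisers are finitely generated, then `K` is finitely generated. -/
theorem fg_of_flow (hA : Acts G T) (hT : T.IsTree) (K : Subgroup G) (f : V → V)
    (hf : ∀ k ∈ K, ∀ x, f (k • x) = k • f x)
    (F : Set (V × V)) (hF : F.Finite)
    (hexc : ∀ x y, T.Adj x y → ¬ Nxt T x y (f x) → ¬ Nxt T y x (f y) →
      ∃ k ∈ K, ∃ d ∈ F, x = k • d.1 ∧ y = k • d.2)
    (hU : ∀ s : ℕ → V, (∀ i, ∀ k ∈ K, k • s i = s i → k • s (i + 1) = s (i + 1)) →
      ∃ U : Subgroup G, U.FG ∧ ∀ k, k ∈ U ↔ k ∈ K ∧ ∃ i : ℕ, k • s i = s i) : K.FG := by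
  set n : V → V := fun x => nxt T x (f x) with hn_def
  have hn : ∀ k ∈ K, ∀ x, n (k • x) = k • n x := by
    intro k hk x
    simp only [hn_def]
    rw [hf k hk, hA.nxt_fun_smul hT]
  refine fg_of_blocks hT.connected K (Mrg n) (mrg_equivalence n) (mrg_smul hn) F hF ?_ ?_
  · intro x y hxy hR
    refine hexc x y hxy ?_ ?_
    · intro h
      apply hR
      refine ⟨1, 0, ?_⟩
      simpa [hn_def] using nxt_eq hT h
    · intro h
      apply hR
      refine ⟨0, 1, ?_⟩
      simpa [hn_def] using (nxt_eq hT h).symm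
  · intro x
    obtain ⟨U, hUfg, hUm⟩ := hU (fun i => n^[i] x) (by
      intro i k hk h
      simp only [Function.iterate_succ_apply'] at h ⊢
      rw [← hn k hk, h])
    exact classStab_fg K hn x U hUfg hUm

end flow

end Pool.Agent.GBSFix
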