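import Pool.Agent.Lib.MP_2e9e4b_al.Flow

/-!
Automorphisms of trees without fixed vertices and without inversions: `|k| ≤ d(v, g^k v)`.
-/

namespace Pool.Agent.GBSFix

open SimpleGraph

variable {G : Type*} [Group G] {V : Type*} [MulAction G V] {T : SimpleGraph V}

/-- no element of `G` inverts an edge. -/
def NoInv (G : Type*) [Group G] {V : Type*} [MulAction G V] (T : SimpleGraph V) : Prop :=
  ∀ (g : G) (x y : V), T.Adj x y → g • x = y → g • y ≠ x

/-- if `g` has no fixed vertex, every edge is the first edge of the geodesic from one of its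
ends to the image of that end. -/
lemma nxt_or_of_no_fixed (hA : Acts G T) (hT : T.IsTree) {g : G} (hg : ∀ v : V, g • v ≠ v)
    {v w : V} (h : T.Adj v w) : Nxt T v w (g • v) ∨ Nxt T w v (g • w) := by
  by_contra hcon
  push Not at hcon
  obtain ⟨h1, h2⟩ := hcon
  have h3 := nxt_of_not_nxt hT h h1
  have h4 := nxt_of_not_nxt hT h.symm h2
  have h5 := dist_cross hT h3 h4
  rw [hA.dist_smul hT.connected, dist_eq_one_iff_adj.mpr h] at h5
  have h6 : T.dist v (g • v) = 0 := by omega
  exact hg v (hT.connected.dist_eq_zero_iff.mp h6).symm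

variable (T) in
/-- next vertex towards the image under `g`. -/
noncomputable def gn (g : G) (v : V) : V := nxt T v (g • v)

lemma gn_spec (hT : T.IsTree) {g : G} (hg : ∀ v : V, g • v ≠ v) (v : V) :
    Nxt T v (gn T g v) (g • v) := nxt_spec hT (hg v).symm

lemma gn_equiv (hA : Acts G T) (hT : T.IsTree) {g : G} :
    ∀ k ∈ Subgroup.zpowers g, ∀ x, gn T g (k • x) = k • gn T g x := by
  rintro k ⟨m, rfl⟩ x
  unfold gn
  rw [← hA.nxt_fun_smul hT]
  congr 1
  simp only [← mul_smul]
  congr 1
  exact (Commute.refl g).zpow_right m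

lemma gn_no_two_cycle (hA : Acts G T) (hI : NoInv G T) (hT : T.IsTree) {g : G}
    (hg : ∀ v : V, g • v ≠ v) (w : V) : gn T g (gn T g w) ≠ w := by
  intro h
  have h1 := gn_spec hT hg w
  have h2 := gn_spec hT hg (gn T g w)
  rw [h] at h2
  have h3 := dist_cross hT h2 h1
  rw [hA.dist_smul hT.connected, dist_eq_one_iff_adj.mpr h2.adj] at h3
  have h4 : T.dist w (g • gn T g w) = 0 := by omega
  have h5 : T.dist (gn T g w) (g • w) = 0 := by omega
  have h6 := hT.connected.dist_eq_zero_iff.mp h4
  have h7 := hT.connected.dist_eq_zero_iff.mp h5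
  exact hI g _ _ h2.adj h6.symm h7.symm

lemma gn_iterate_injective (hA : Acts G T) (hI : NoInv G T) (hT : T.IsTree) {g : G}
    (hg : ∀ v : V, g • v ≠ v) (v : V) {i j : ℕ} (h : (gn T g)^[i] v = (gn T g)^[j] v) : i = j := by
  -- it suffices to exclude periodic points
  have key : ∀ (u : V) (p : ℕ), 0 < p → (gn T g)^[p] u ≠ u := by
    intro u p hp hper
    set s : ℕ → V := fun k => (gn T g)^[k] u with hs
    have hper' : ∀ k, s (k + p) = s k := by
      intro k
      simp only [hs]
      rw [Function.iterate_add_apply, hper]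
    have hmod : ∀ k, s k = s (k % p) := by
      intro k
      induction k using Nat.strong_induction_on with
      | _ k ih =>
        by_cases hk : k < p
        · rw [Nat.mod_eq_of_lt hk]
        · have h1 : k = (k - p) + p := by omega
          rw [h1, hper', ih (k - p) (by omega)]
          simp
    have hadj : ∀ k, Nxt T (s k) (s (k + 1)) (g • s k) := by
      intro k
      have := gn_spec hT hg (s k)
      simp only [hs, Function.iterate_succ_apply'] at this ⊢
      exact this
    obtain ⟨m, hm, hmax⟩ := Finset.exists_max_image (Finset.range p) (fun k => T.dist (s k) u)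
      ⟨0, Finset.mem_range.mpr hp⟩
    have hmax' : ∀ k, T.dist (s k) u ≤ T.dist (s m) u := by
      intro k
      rw [hmod k]
      exact hmax _ (Finset.mem_range.mpr (Nat.mod_lt _ hp))
    have hmp : s (m + p) = s m := hper' m
    have e1 : T.Adj (s (m + p)) (s (m + p + 1)) := (hadj _).adj
    have e2 : T.Adj (s (m + p - 1)) (s (m + p)) := by
      have := (hadj (m + p - 1)).adj
      rwa [Nat.sub_add_cancel (by omega)] at this
    have f1 : Nxt T (s (m + p)) (s (m + p + 1)) u := by
      rcases nxt_or_nxt hT e1 u with h | h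
      · exact h
      · exfalso
        have h1 := h.2
        have h2 := hmax' (m + p + 1)
        rw [hmp] at h1
        omega
    have f2 : Nxt T (s (m + p)) (s (m + p - 1)) u := by
      rcases nxt_or_nxt hT e2 u with h | h
      · exfalso
        have h1 := h.2
        have h2 := hmax' (m + p - 1)
        rw [hmp] at h1
        omega
      · exact h
    have h3 := nxt_unique hT f1 f2
    have h4 : gn T g (gn T g (s (m + p - 1))) = s (m + p - 1) := by
      have h5 : gn T g (s (m + p - 1)) = s (m + p) := by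
        have : m + p = (m + p - 1) + 1 := by omega
        conv_rhs => rw [this]
        simp only [hs, Function.iterate_succ_apply']
      rw [h5, ← h3]
      simp only [hs, Function.iterate_succ_apply']
    exact gn_no_two_cycle hA hI hT hg _ h4
  by_contra hne
  wlog hij : i < j generalizing i j
  · exact this h.symm (Ne.symm hne) (by omega)
  obtain ⟨p, rfl⟩ := Nat.exists_eq_add_of_lt hij
  apply key ((gn T g)^[i] v) (p + 1) (by omega)
  rw [← Function.iterate_add_apply, h]
  congr 1
  omega

/-- difference relation -/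
def Sh (n : V → V) (v w : V) (m : ℤ) : Prop := ∃ i j : ℕ, n^[i] v = n^[j] w ∧ (i : ℤ) - j = m

lemma Sh.trans {n : V → V} {u v w : V} {m m' : ℤ} (h : Sh n u v m) (h' : Sh n v w m') :
    Sh n u w (m + m') := by
  obtain ⟨i, j, h, rfl⟩ := h
  obtain ⟨i', j', h', rfl⟩ := h'
  refine ⟨i' + i, j + j', ?_, by push_cast; ring⟩
  rw [Function.iterate_add_apply, h, ← Function.iterate_add_apply, Nat.add_comm i' j,
    Function.iterate_add_apply, h', ← Function.iterate_add_apply]

lemma Sh.of_walk (hA : Acts G T) (hT : T.IsTree) {g : G} (hg : ∀ v : V, g • v ≠ v) {v w : V}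
    (p : T.Walk v w) : ∃ m : ℤ, |m| ≤ p.length ∧ Sh (gn T g) v w m := by
  induction p with
  | nil => exact ⟨0, by simp, 0, 0, rfl, by simp⟩
  | @cons a b _ hadj p ih =>
    obtain ⟨m, hm, hs⟩ := ih
    have h1 : ∃ e : ℤ, |e| ≤ 1 ∧ Sh (gn T g) a b e := by
      rcases nxt_or_of_no_fixed hA hT hg hadj with h | h
      · exact ⟨1, by simp, 1, 0, by simpa [gn] using nxt_eq hT h, by simp⟩
      · exact ⟨-1, by simp, 0, 1, by simpa [gn] using (nxt_eq hT h).symm, by simp⟩
    obtain ⟨e, he, hs'⟩ := h1
    refine ⟨e + m, ?_, hs'.trans hs⟩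
    have := abs_add_le e m
    simp only [Walk.length_cons]
    push_cast
    linarith

/-- translation estimate for automorphisms without fixed vertex. -/
theorem abs_le_dist_zpow (hA : Acts G T) (hI : NoInv G T) (hT : T.IsTree) {g : G}
    (hg : ∀ v : V, g • v ≠ v) (v : V) (k : ℤ) : |k| ≤ T.dist v (g ^ k • v) := by
  have hn := gn_equiv hA hT (g := g)
  have hgm : g ∈ Subgroup.zpowers g := Subgroup.mem_zpowers g
  -- translation number
  obtain ⟨p, hp⟩ := hT.connected.exists_walk_length_eq_dist v (g • v)
  obtain ⟨τ, _, hτ⟩ := Sh.of_walk hA hT hg p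
  have hτ' : Shift (gn T g) v g τ := by
    obtain ⟨i, j, h, hm⟩ := hτ
    exact ⟨i, j, by rw [h, iterate_smul hn hgm], hm⟩
  have hτ0 : τ ≠ 0 := by
    rintro rfl
    obtain ⟨i, j, h, hm⟩ := hτ'
    have : i = j := by omega
    subst this
    exact hg _ h.symm
  obtain ⟨q, hq⟩ := hT.connected.exists_walk_length_eq_dist v (g ^ k • v)
  obtain ⟨m, hm, hms⟩ := Sh.of_walk hA hT hg q
  have hk := Shift.zpow hn hgm hτ' k
  have : m = k * τ := by
    obtain ⟨i, j, h1, h2⟩ := hms
    obtain ⟨i', j', h3, h4⟩ := hk
    rw [← iterate_smul hn (Subgroup.zpow_mem _ hgm k)] at h3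
    have h5 : (gn T g)^[j' + i] v = (gn T g)^[j + i'] v := by
      rw [Function.iterate_add_apply, h1, ← Function.iterate_add_apply, Nat.add_comm,
        Function.iterate_add_apply, ← h3, ← Function.iterate_add_apply]
    have h6 := gn_iterate_injective hA hI hT hg v h5
    omega
  rw [← hq]
  refine le_trans ?_ hm
  rw [this, abs_mul]
  have : 1 ≤ |τ| := Int.one_le_abs hτ0
  nlinarith [abs_nonneg k]

/-- a root of an element with a fixed vertex has a fixed vertex. -/
lemma exists_fixed_of_zpow (hA : Acts G T) (hI : NoInv G T) (hT : T.IsTree) {g : G} {k : ℤ}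
    (hk : k ≠ 0) (h : ∃ v : V, g ^ k • v = v) : ∃ v : V, g • v = v := by
  by_contra hcon
  push Not at hcon
  obtain ⟨v, hv⟩ := h
  have := abs_le_dist_zpow hA hI hT hcon v k
  rw [hv, dist_self] at this
  have h2 : 0 < |k| := abs_pos.mpr hk
  simp at this
  exact hk this

end Pool.Agent.GBSFix
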