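import Pool.Agent.Lib.MP_2e9e4b_al.Modular

/-!
If the quotient graph has first Betti number one, the group is generated by the elliptic elements
and one further element.
-/

namespace Pool.Agent.GBSFix

open SimpleGraph

variable {G : Type*} [Group G] {V : Type*} [MulAction G V] {T : SimpleGraph V}

/-- a finite connected partial transversal -/
def PT (G : Type*) [Group G] {V : Type*} [MulAction G V] (T : SimpleGraph V) (S : Finset V) :
    Prop :=
  (∀ x ∈ S, ∀ y ∈ S, ∀ g : G, g • x = y → x = y) ∧ (T.induce (S : Set V)).Connected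

lemma PT.singleton (v : V) : PT G T {v} := by
  constructor
  · intro x hx y hy g _
    rw [Finset.mem_singleton] at hx hy
    rw [hx, hy]
  · have hs : Subsingleton ((({v} : Finset V) : Set V)) := by
      rw [Finset.coe_singleton]; infer_instance
    have hn : Nonempty ((({v} : Finset V) : Set V)) := ⟨⟨v, by simp⟩⟩
    refine ⟨?_⟩
    intro a b
    rw [Subsingleton.elim a b]

lemma PT.extend [DecidableEq V] (hA : Acts G T) (hT : T.Connected) {S : Finset V} (hS : PT G T S)
    {w₀ : V} (hw : ∀ s ∈ S, ∀ g : G, g • s ≠ w₀) : ∃ w, w ∉ S ∧ PT G T (insert w S) := by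
  obtain ⟨⟨s₀, hs₀⟩⟩ := hS.2.nonempty
  obtain ⟨p⟩ := hT.preconnected s₀ w₀
  obtain ⟨d, _, ⟨g, s, hs, hgs⟩, hd2⟩ := p.exists_boundary_dart
    {v | ∃ (g : G) (s : V), s ∈ S ∧ g • s = v} ⟨1, s₀, hs₀, by simp⟩
    (by rintro ⟨g, s, hs, h⟩; exact hw s hs g h)
  have hadj : T.Adj s (g⁻¹ • d.snd) := by
    have := hA g⁻¹ _ _ d.adj
    rwa [← hgs, inv_smul_smul] at this
  have hnot : ∀ (h : G) (s' : V), s' ∈ S → h • s' ≠ g⁻¹ • d.snd := by
    intro h s' hs' heq
    apply hd2
    refine ⟨g * h, s', hs', ?_⟩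
    rw [mul_smul, heq, smul_inv_smul]
  refine ⟨g⁻¹ • d.snd, ?_, ?_, ?_⟩
  · intro hmem
    exact hnot 1 _ hmem (by simp)
  · intro x hx y hy h hxy
    rw [Finset.mem_insert] at hx hy
    rcases hx with rfl | hx
    · rcases hy with rfl | hy
      · rfl
      · exfalso
        apply hnot h⁻¹ y hy
        rw [← hxy, inv_smul_smul]
    · rcases hy with rfl | hy
      · exact absurd hxy (hnot h x hx)
      · exact hS.1 x hx y hy h hxy
  · have h1 : (T.induce ({g⁻¹ • d.snd} : Set V)).Preconnected := by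
      intro a b
      rw [Subsingleton.elim a b]
    have h2 := connected_induce_union (s := (S : Set V)) (t := {g⁻¹ • d.snd})
      hS.2.preconnected h1 hs (Set.mem_singleton _) hadj
    have h3 : ((insert (g⁻¹ • d.snd) S : Finset V) : Set V) = (S : Set V) ∪ {g⁻¹ • d.snd} := by
      rw [Finset.coe_insert, Set.union_comm]; rfl
    rw [h3]
    exact h2

lemma orbit_eq_iff' {x y : V} :
    (Quotient.mk (MulAction.orbitRel G V) x = Quotient.mk (MulAction.orbitRel G V) y) ↔
      ∃ g : G, g • y = x := by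
  rw [Quotient.eq]
  exact Iff.rfl

lemma PT.injOn {S : Finset V} (hS : PT G T S) :
    Function.Injective (fun s : S => (Quotient.mk (MulAction.orbitRel G V) (s : V) :
      VertexOrbits G V)) := by
  rintro ⟨x, hx⟩ ⟨y, hy⟩ h
  obtain ⟨g, hg⟩ := orbit_eq_iff'.mp h
  have := hS.1 y hy x hx g hg
  simp [this]

lemma exists_PT (hA : Acts G T) (hT : T.Connected) [Finite (VertexOrbits G V)] (k : ℕ)
    (hk1 : 1 ≤ k) (hk : k ≤ Nat.card (VertexOrbits G V)) : ∃ S : Finset V, S.card = k ∧ PT G T S := by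
  classical
  induction k, hk1 using Nat.le_induction with
  | base =>
    obtain ⟨v⟩ := hT.nonempty
    exact ⟨{v}, by simp, PT.singleton v⟩
  | succ k hk1 ih =>
    obtain ⟨S, hSc, hS⟩ := ih (by omega)
    have hns : ¬ Function.Surjective (fun s : S => (Quotient.mk (MulAction.orbitRel G V) (s : V) :
      VertexOrbits G V)) := by
      intro hsurj
      have h1 : Nat.card (VertexOrbits G V) ≤ Nat.card S :=
        Nat.card_le_card_of_surjective _ hsurj
      have h2 : Nat.card S = k := by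
        rw [Nat.card_eq_fintype_card, Fintype.card_coe, hSc]
      omega
    unfold Function.Surjective at hns
    push Not at hns
    obtain ⟨o, ho⟩ := hns
    obtain ⟨w₀, rfl⟩ := Quotient.exists_rep o
    obtain ⟨w, hw, hP⟩ := hS.extend hA hT (w₀ := w₀) (by
      intro s hs g hg
      apply ho ⟨s, hs⟩
      apply orbit_eq_iff'.mpr
      exact ⟨g⁻¹, by rw [← hg, inv_smul_smul]⟩)
    exact ⟨insert w S, by rw [Finset.card_insert_of_notMem hw, hSc], hP⟩

lemma exists_missing {α β : Type*} [Finite α] [Finite β] (f : α → β) (hf : Function.Injective f)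
    (h : Nat.card α + 1 = Nat.card β) : ∃ b₀, ∀ b, b ≠ b₀ → ∃ a, f a = b := by
  have h1 : (Set.range f).ncard = Nat.card α := by
    rw [← Set.image_univ, Set.ncard_image_of_injective _ hf, Set.ncard_univ]
  have h2 : ((Set.range f)ᶜ).ncard = 1 := by
    have := Set.ncard_add_ncard_compl (Set.range f)
    omega
  obtain ⟨b₀, hb₀⟩ := Set.ncard_eq_one.mp h2
  refine ⟨b₀, fun b hb => ?_⟩
  by_contra hcon
  have : b ∈ (Set.range f)ᶜ := hcon
  rw [hb₀] at this
  exact hb this

/-- the subgroup generated by all elements with a fixed vertex and by `t` -/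
def ellClosure (G : Type*) [Group G] (V : Type*) [MulAction G V] (t : G) : Subgroup G :=
  Subgroup.closure ({x | ∃ v : V, x • v = v} ∪ {t})

lemma ell_mem_ellClosure {t x : G} {v : V} (h : x • v = v) : x ∈ ellClosure G V t :=
  Subgroup.subset_closure (Or.inl ⟨v, h⟩)

lemma t_mem_ellClosure {t : G} : t ∈ ellClosure G V t :=
  Subgroup.subset_closure (Or.inr rfl)

theorem exists_generator (hA : Acts G T) (hT : T.IsTree) [Finite (VertexOrbits G V)]
    [Finite (EdgeOrbits G T)]
    (hcard : Nat.card (VertexOrbits G V) = Nat.card (EdgeOrbits G T)) :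
    ∃ t : G, ellClosure G V t = ⊤ := by
  classical
  have hne : Nonempty (VertexOrbits G V) := by
    obtain ⟨v⟩ := hT.connected.nonempty
    exact ⟨Quotient.mk _ v⟩
  have hn1 : 1 ≤ Nat.card (VertexOrbits G V) := Nat.card_pos
  obtain ⟨S, hSc, hS⟩ := exists_PT hA hT.connected _ hn1 le_rfl
  -- S is a full transversal
  have hsurj : Function.Surjective (fun s : S => (Quotient.mk (MulAction.orbitRel G V) (s : V) :
      VertexOrbits G V)) := by
    apply ((Nat.bijective_iff_injective_and_card _).mpr ⟨hS.injOn, ?_⟩).2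
    rw [Nat.card_eq_fintype_card, Fintype.card_coe, hSc]
  have hfull : ∀ w : V, ∃ s ∈ S, ∃ g : G, g • s = w := by
    intro w
    obtain ⟨⟨s, hs⟩, h⟩ := hsurj (Quotient.mk _ w)
    obtain ⟨g, hg⟩ := orbit_eq_iff'.mp h.symm
    exact ⟨s, hs, g, hg⟩
  -- the induced subtree
  have htree : (T.induce (S : Set V)).IsTree := ⟨hS.2, hT.isAcyclic.induce _⟩
  have hedges : Nat.card (T.induce (S : Set V)).edgeSet + 1 = Nat.card (EdgeOrbits G T) := by
    have := (isTree_iff_connected_and_card.mp htree).2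
    rw [this, ← hcard, ← hSc]
    simp
  set ψ : (T.induce (S : Set V)).edgeSet → EdgeOrbits G T := fun e =>
    Quotient.mk (edgeSetoid G T) ⟨(e : Sym2 (S : Set V)).map Subtype.val, by
      obtain ⟨e, he⟩ := e
      induction e using Sym2.inductionOn with
      | _ x y => simpa using he⟩ with hψ
  have hψinj : Function.Injective ψ := by
    rintro ⟨e, he⟩ ⟨e', he'⟩ h
    induction e using Sym2.inductionOn with
    | _ x y =>
    induction e' using Sym2.inductionOn with
    | _ x' y' =>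
    obtain ⟨g, hg⟩ := Quotient.exact h
    simp only [Sym2.map_mk, Sym2.eq_iff] at hg
    obtain ⟨x, hx⟩ := x
    obtain ⟨y, hy⟩ := y
    obtain ⟨x', hx'⟩ := x'
    obtain ⟨y', hy'⟩ := y'
    rcases hg with ⟨h1, h2⟩ | ⟨h1, h2⟩
    · have e1 := hS.1 x hx x' hx' g h1
      have e2 := hS.1 y hy y' hy' g h2
      subst e1 e2
      rfl
    · have e1 := hS.1 x hx y' hy' g h1
      have e2 := hS.1 y hy x' hx' g h2
      subst e1 e2
      apply Subtype.ext
      exact Sym2.eq_swap
  obtain ⟨ε₀, hε₀⟩ := exists_missing ψ hψinj hedges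
  -- a representative of the missing edge starting in `S`
  obtain ⟨⟨e₀, he₀⟩, rfl⟩ := Quotient.exists_rep ε₀
  induction e₀ using Sym2.inductionOn with
  | _ u₀ w₀ =>
  have hadj₀ : T.Adj u₀ w₀ := he₀
  obtain ⟨s, hs, g, hg⟩ := hfull u₀
  obtain ⟨s', hs', t, ht⟩ := hfull (g⁻¹ • w₀)
  have hw₀ : w₀ = g • t • s' := by rw [ht, smul_inv_smul]
  refine ⟨t, ?_⟩
  -- closure under adjacency
  have hclosed : ∀ v w : V, T.Adj v w → (∃ x ∈ ellClosure G V t, ∃ y ∈ S, x • y = v) →
      ∃ x ∈ ellClosure G V t, ∃ y ∈ S, x • y = w := by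
    rintro v w hvw ⟨x, hx, s₁, hs₁, rfl⟩
    have hadj : T.Adj s₁ (x⁻¹ • w) := by
      have := hA x⁻¹ _ _ hvw
      rwa [inv_smul_smul] at this
    suffices h : ∃ z ∈ ellClosure G V t, ∃ y ∈ S, z • y = x⁻¹ • w by
      obtain ⟨z, hz, y, hy, hzy⟩ := h
      exact ⟨x * z, Subgroup.mul_mem _ hx hz, y, hy, by rw [mul_smul, hzy, smul_inv_smul]⟩
    by_cases hε : (Quotient.mk (edgeSetoid G T) ⟨s(s₁, x⁻¹ • w), hadj⟩ : EdgeOrbits G T) =
        Quotient.mk (edgeSetoid G T) ⟨s(u₀, w₀), he₀⟩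
    · obtain ⟨h, hh⟩ := Quotient.exact hε.symm
      simp only [Sym2.map_mk, Sym2.eq_iff] at hh
      rcases hh with ⟨h1, h2⟩ | ⟨h1, h2⟩
      · -- h u₀ = s₁, h w₀ = x⁻¹ w
        have e1 : s = s₁ := hS.1 s hs s₁ hs₁ (h * g) (by rw [mul_smul, hg, h1])
        subst e1
        have e2 : (h * g) • s = s := by rw [mul_smul, hg, h1]
        refine ⟨(h * g) * t, Subgroup.mul_mem _ (ell_mem_ellClosure e2) t_mem_ellClosure,
          s', hs', ?_⟩
        rw [mul_smul, mul_smul, ← hw₀, h2]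
      · -- h u₀ = x⁻¹ w, h w₀ = s₁
        have e0 : (h * g * t) • s' = s₁ := by rw [mul_smul, mul_smul, ← hw₀, h2]
        have e1 : s' = s₁ := hS.1 s' hs' s₁ hs₁ _ e0
        subst e1
        refine ⟨h * g, ?_, s, hs, by rw [mul_smul, hg, h1]⟩
        have e2 : h * g = (h * g * t) * t⁻¹ := by group
        rw [e2]
        exact Subgroup.mul_mem _ (ell_mem_ellClosure e0) (Subgroup.inv_mem _ t_mem_ellClosure)
    · obtain ⟨⟨e, he⟩, hab⟩ := hε₀ _ hε
      induction e using Sym2.inductionOn with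
      | _ y z =>
      obtain ⟨h, hh⟩ := Quotient.exact hab
      simp only [Sym2.map_mk, Sym2.eq_iff] at hh
      obtain ⟨y, hy⟩ := y
      obtain ⟨z, hz⟩ := z
      rcases hh with ⟨h1, h2⟩ | ⟨h1, h2⟩
      · have e1 : y = s₁ := hS.1 y hy s₁ hs₁ h h1
        simp only at h1 h2
        rw [e1] at h1
        exact ⟨h, ell_mem_ellClosure h1, z, hz, h2⟩
      · have e1 : z = s₁ := hS.1 z hz s₁ hs₁ h h2
        simp only at h1 h2
        rw [e1] at h2
        exact ⟨h, ell_mem_ellClosure h2, y, hy, h1⟩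
  have hwalk : ∀ v w : V, T.Walk v w → (∃ x ∈ ellClosure G V t, ∃ y ∈ S, x • y = v) →
      ∃ x ∈ ellClosure G V t, ∃ y ∈ S, x • y = w := by
    intro v w p
    induction p with
    | nil => exact id
    | cons hadj _ ih => exact fun h => ih (hclosed _ _ hadj h)
  rw [eq_top_iff]
  intro x _
  obtain ⟨p⟩ := hT.connected.preconnected s (x • s)
  obtain ⟨y, hy, s₂, hs₂, h⟩ := hwalk _ _ p ⟨1, Subgroup.one_mem _, s, hs, by simp⟩
  have e1 : s₂ = s := hS.1 s₂ hs₂ s hs (x⁻¹ * y) (by rw [mul_smul, h, inv_smul_smul])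
  subst e1
  have e2 : (y⁻¹ * x) • s₂ = s₂ := by rw [mul_smul, ← h, inv_smul_smul]
  have e3 : x = y * (y⁻¹ * x) := by group
  rw [e3]
  exact Subgroup.mul_mem _ hy (ell_mem_ellClosure e2)

end Pool.Agent.GBSFix
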