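import Pool.Agent.Lib.MP_2e9e4b_al.CaseA
import Pool.Agent.Lib.MP_2e9e4b_al.CaseB
import Pool.Agent.Lib.MP_2e9e4b_al.Span

/-!
Assembly of the proof.
-/

namespace Pool.Agent.GBSFix

open SimpleGraph

variable {G : Type*} [Group G] {V : Type*} [MulAction G V] {T : SimpleGraph V}

/-- `c` fixes both ends of the pair `d` -/
def FixP (c : G) (d : V × V) : Prop := c • d.1 = d.1 ∧ c • d.2 = d.2

lemma IsGBSSystem.exists_darts (hS : IsGBSSystem G T) :
    ∃ D : Set (V × V), D.Finite ∧ (∀ d ∈ D, T.Adj d.1 d.2) ∧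
      ∀ x y, T.Adj x y → ∃ g : G, ∃ d ∈ D, x = g • d.1 ∧ y = g • d.2 := by
  classical
  have hfin := hS.finite_edges
  have h : ∀ o : EdgeOrbits G T, ∃ p : V × V, ∃ h : T.Adj p.1 p.2,
      Quotient.mk (edgeSetoid G T) ⟨s(p.1, p.2), h⟩ = o := by
    intro o
    obtain ⟨⟨e, he⟩, rfl⟩ := Quotient.exists_rep o
    induction e using Sym2.inductionOn with
    | _ x y => exact ⟨(x, y), he, rfl⟩
  choose p hp hpo using h
  refine ⟨Set.range p ∪ Set.range (fun o => (p o).swap),
    (Set.finite_range _).union (Set.finite_range _), ?_, ?_⟩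
  · rintro d (⟨o, rfl⟩ | ⟨o, rfl⟩)
    · exact hp o
    · exact (hp o).symm
  · intro x y hxy
    set o : EdgeOrbits G T := Quotient.mk (edgeSetoid G T) ⟨s(x, y), hxy⟩ with ho
    obtain ⟨g, hg⟩ := Quotient.exact (hpo o)
    simp only [Sym2.map_mk, Sym2.eq_iff] at hg
    rcases hg with ⟨h1, h2⟩ | ⟨h1, h2⟩
    · exact ⟨g, p o, Or.inl ⟨o, rfl⟩, h1.symm, h2.symm⟩
    · exact ⟨g, (p o).swap, Or.inr ⟨o, rfl⟩, h2.symm, h1.symm⟩

/-- Reduction of the finiteness of exceptional edges to a statement on cosets. -/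
lemma IsGBSSystem.fixed_fg_of_key (hS : IsGBSSystem G T) (φ : G ≃* G) (f : V → V)
    (hf : ∀ (g : G) (v : V), f (g • v) = φ g • f v)
    (hU : ∀ s : ℕ → V,
      (∀ i, ∀ k ∈ fixedSubgroup φ, k • s i = s i → k • s (i + 1) = s (i + 1)) →
      ∃ U : Subgroup G, U.FG ∧ ∀ k, k ∈ U ↔ k ∈ fixedSubgroup φ ∧ ∃ i : ℕ, k • s i = s i)
    (hkey : ∀ (d : V × V), T.Adj d.1 d.2 → ∀ h : G, ∃ B : Set G, B.Finite ∧
      ∀ g : G, (∃ c : G, FixP c d ∧ (φ g)⁻¹ * g = h * c) →
        ∃ b ∈ B, ∃ κ ∈ fixedSubgroup φ, ∃ c' : G, FixP c' d ∧ g = κ * b * c') :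
    (fixedSubgroup φ).FG := by
  classical
  have hA := hS.acts
  have hT := hS.isTree
  obtain ⟨D, hDfin, hDadj, hDcov⟩ := hS.exists_darts
  -- choice of elements
  set hh : V × V → V × V → G := fun d e => if h : ∃ g : G, g • d = e then h.choose else 1 with hhh
  have hhh' : ∀ d e, (∃ g : G, g • d = e) → hh d e • d = e := by
    intro d e h
    simp only [hhh]
    rw [dif_pos h]
    exact h.choose_spec
  have hkey' : ∀ (d : V × V) (h : G), ∃ B : Set G, B.Finite ∧ (T.Adj d.1 d.2 →
      ∀ g : G, (∃ c : G, FixP c d ∧ (φ g)⁻¹ * g = h * c) →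
        ∃ b ∈ B, ∃ κ ∈ fixedSubgroup φ, ∃ c' : G, FixP c' d ∧ g = κ * b * c') := by
    intro d h
    by_cases hd : T.Adj d.1 d.2
    · obtain ⟨B, hB, hB'⟩ := hkey d hd h
      exact ⟨B, hB, fun _ => hB'⟩
    · exact ⟨∅, Set.finite_empty, fun h => absurd h hd⟩
  choose B hBfin hB using hkey'
  set F : Set (V × V) := ⋃ d ∈ D, ⋃ e ∈ {e : V × V | Nxt T e.2 e.1 (f d.1) ∧ Nxt T e.1 e.2 (f d.2)},
    (fun b : G => b • d) '' (B d (hh d e)) with hF
  have hFfin : F.Finite :=
    hDfin.biUnion fun d _ => (cross_finite hT _ _).biUnion fun e _ => (hBfin _ _).image _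
  refine fg_of_flow hA hT (fixedSubgroup φ) f ?_ F hFfin ?_ hU
  · intro k hk x
    rw [hf, show φ k = k from hk]
  · intro x y hxy h1 h2
    obtain ⟨g, d, hd, rfl, rfl⟩ := hDcov x y hxy
    set γ : G := (φ g)⁻¹ * g with hγ
    have h1' : ¬ Nxt T (γ • d.1) (γ • d.2) (f d.1) := by
      intro h
      apply h1
      rw [hf]
      have := (hA.nxt_smul hT.connected (φ g)).mpr h
      simpa [hγ, mul_smul] using this
    have h2' : ¬ Nxt T (γ • d.2) (γ • d.1) (f d.2) := by
      intro h
      apply h2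
      rw [hf]
      have := (hA.nxt_smul hT.connected (φ g)).mpr h
      simpa [hγ, mul_smul] using this
    have hadj : T.Adj (γ • d.1) (γ • d.2) := hA γ _ _ (hDadj d hd)
    have h3 : Nxt T (γ • d.2) (γ • d.1) (f d.1) := nxt_of_not_nxt hT hadj h1'
    have h4 : Nxt T (γ • d.1) (γ • d.2) (f d.2) := nxt_of_not_nxt hT hadj.symm h2'
    have h5 : hh d (γ • d) • d = γ • d := hhh' d _ ⟨γ, rfl⟩
    have h6 : FixP ((hh d (γ • d))⁻¹ * γ) d := by
      have : ((hh d (γ • d))⁻¹ * γ) • d = d := by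
        rw [mul_smul, inv_smul_eq_iff]
        exact h5.symm
      exact ⟨congrArg Prod.fst this, congrArg Prod.snd this⟩
    obtain ⟨b, hb, κ, hκ, c', hc', hg⟩ := hB d (hh d (γ • d)) (hDadj d hd) g
      ⟨_, h6, by rw [mul_inv_cancel_left]⟩
    refine ⟨κ, hκ, b • d, ?_, ?_, ?_⟩
    · rw [hF]
      simp only [Set.mem_iUnion]
      exact ⟨d, hd, γ • d, ⟨h3, h4⟩, b, hb, rfl⟩
    · rw [hg, mul_smul, hc'.1, mul_smul]
      rfl
    · rw [hg, mul_smul, hc'.2, mul_smul]
      rfl

section caseA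

variable {a : G}

/-- equivariant vertex map -/
lemma IsGBSSystem.exists_map (hS : IsGBSSystem G T) (ha1 : a ≠ 1) (ha : ∃ v : V, a • v = v)
    (φ : G ≃* G) (hφ : ∃ v : V, φ a • v = v) :
    ∃ f : V → V, ∀ (g : G) (v : V), f (g • v) = φ g • f v := by
  have hA := hS.acts
  have hI := hS.noInv
  have hT := hS.isTree
  obtain ⟨r, s, hs, hr⟩ := exists_section G V
  have hW : ∀ v : V, ∃ w : V, ∀ x : G, x • v = v → φ x • w = w := by
    intro v
    obtain ⟨g, hg, hginf⟩ := hS.vgen v
    have hgv : g • v = v := (hg g).mpr ⟨1, by simp⟩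
    obtain ⟨i, j, hi, hij⟩ := hS.cm ha1 ha ⟨v, hgv⟩
    obtain ⟨v₁, hv₁⟩ := hφ
    have h1 : (φ g) ^ i • v₁ = v₁ := by
      rw [← map_zpow, hij, map_zpow]
      have : φ a ∈ MulAction.stabilizer G v₁ := hv₁
      exact (MulAction.stabilizer G v₁).zpow_mem this j
    obtain ⟨w, hw⟩ := exists_fixed_of_zpow hA hI hT hi ⟨v₁, h1⟩
    refine ⟨w, ?_⟩
    intro x hx
    obtain ⟨k, rfl⟩ := (hg x).mp hx
    rw [map_zpow]
    have : φ g ∈ MulAction.stabilizer G w := hw
    exact (MulAction.stabilizer G w).zpow_mem this k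
  choose W hW using hW
  refine ⟨fun v => φ (s v) • W (r v), ?_⟩
  intro g v
  simp only
  rw [hr]
  have h1 : ((s (g • v))⁻¹ * g * s v) • r v = r v := by
    rw [mul_smul, mul_smul, hs, inv_smul_eq_iff]
    conv_rhs => rw [← hr g v, hs]
  have h2 := hW (r v) _ h1
  conv_lhs => rw [← h2]
  rw [← mul_smul, ← mul_smul, ← map_mul, ← map_mul]
  congr 2
  group

theorem IsGBSSystem.fixed_fg_caseA (hS : IsGBSSystem G T) (ha1 : a ≠ 1) (ha : ∃ v : V, a • v = v)
    (hfin : FinVal a) (t : G) (ht : ellClosure G V t = ⊤) (ht1 : mu a t ≠ 1)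
    (φ : G ≃* G) (hφ : ∃ v : V, φ a • v = v) : (fixedSubgroup φ).FG := by
  classical
  have hA := hS.acts
  have hI := hS.noInv
  have hT := hS.isTree
  have hinf := hS.infOrd ha ha1
  have hall := hS.allCm ha1 ha
  have hmul := mu_mul hinf hall
  have hmu0 := mu_ne_zero hinf hall
  have hell : ∀ {x : G}, (∃ v : V, x • v = v) → mu a x = 1 := fun h => hS.mu_elliptic ha1 ha h
  obtain ⟨f, hf⟩ := hS.exists_map ha1 ha φ hφ
  refine hS.fixed_fg_of_key φ f hf
    (fun s hs => hS.union_fg ha1 ha hfin (fixedSubgroup φ) s hs) ?_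
  set l : ℚ := ev a (φ a) with hl
  -- `φ` multiplies exponents by `l`
  have hφcm : Cm a (φ a) := hS.cm ha1 ha hφ
  have hφev : ∀ x : G, Cm a x → Cm a (φ x) ∧ ev a (φ x) = l * ev a x := by
    rintro x ⟨i, j, hi, hij⟩
    have h1 : (φ x) ^ i = (φ a) ^ j := by rw [← map_zpow, hij, map_zpow]
    obtain ⟨h2, h3⟩ := ev_of_zpow_eq hinf hφcm hi h1
    refine ⟨h2, ?_⟩
    rw [h3, ev_eq hinf hi hij, hl]
    ring
  have hφa1 : φ a ≠ 1 := by
    intro h
    exact ha1 ((map_eq_one_iff φ φ.injective).mp h)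
  have hl0 : l ≠ 0 := hS.ev_ne_zero ha1 ha hφ hφa1
  have hφmu : ∀ g : G, mu a (φ g) = mu a g := by
    intro g
    have h1 := (hφev _ (hall g)).2
    have h2 := (ev_conj hinf hall (φ g) hφcm).2
    have h3 : φ (g * a * g⁻¹) = φ g * φ a * (φ g)⁻¹ := by simp
    rw [h3, h2] at h1
    have h4 : mu a (φ g) * l = l * mu a g := h1
    have : l * (mu a (φ g) - mu a g) = 0 := by linarith
    have := (mul_eq_zero.mp this).resolve_left hl0
    linarith
  have hφell : ∀ x : G, (∃ v : V, x • v = v) → ∃ v : V, φ x • v = v := by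
    rintro x ⟨v, hv⟩
    exact ⟨f v, by rw [← hf, hv]⟩
  intro d hd h
  obtain ⟨c, hc, hcinf⟩ := hS.egen hd
  have hcfix : FixP c d := (hc c).mpr ⟨1, by simp⟩
  have hcfixk : ∀ k : ℤ, FixP (c ^ k) d := fun k => (hc _).mpr ⟨k, rfl⟩
  have hcell : ∃ v : V, c • v = v := ⟨_, hcfix.1⟩
  have hc1 : c ≠ 1 := by
    intro h
    have := hcinf 1 (by rw [h]; simp)
    exact one_ne_zero this
  have hccm : Cm a c := hS.cm ha1 ha hcell
  have hevc : ev a c ≠ 0 := hS.ev_ne_zero ha1 ha hcell hc1
  -- the relevant set of exponents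
  set Ks : Set ℤ := {k | ∃ g : G, (φ g)⁻¹ * g = h * c ^ k} with hKs
  have hmuh : ∀ k ∈ Ks, mu a h = 1 := by
    rintro k ⟨g, hg⟩
    have h1 : g = φ g * (h * c ^ k) := by rw [← hg]; group
    have h2 := congrArg (mu a) h1
    rw [hmul, hmul, hφmu, hell ⟨_, (hcfixk k).1⟩, mul_one] at h2
    have h3 := hmu0 g
    have h4 : mu a g * (mu a h - 1) = 0 := by linarith
    have := (mul_eq_zero.mp h4).resolve_left h3
    linarith
  by_cases hl1 : l = 1
  · -- first case : exponents are determined up to finitely many possibilities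
    have hKfin : Ks.Finite := by
      obtain ⟨Θ, hΘ, hΘell⟩ := hS.exists_cocycle ha1 ha
      have hΘ1 : Θ 1 = 0 := by
        have := hΘ 1 1
        rw [mul_one, mu_one hinf] at this
        linarith
      -- difference cocycle
      set q : ℚ := (Θ (φ t) - Θ t) / (1 - mu a t) with hq
      have hδ : ∀ g : G, Θ (φ g) - Θ g = q * (1 - mu a g) := by
        intro g
        have hg : g ∈ ellClosure G V t := by rw [ht]; trivial
        unfold ellClosure at hg
        induction hg using Subgroup.closure_induction with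
        | mem g hg =>
          rcases hg with hg | hg
          · have h1 := hΘell g hg
            have h2 := hΘell (φ g) (hφell g hg)
            have h3 := (hφev g (hS.cm ha1 ha hg)).2
            rw [h1, h2, h3, hl1, hell hg]
            ring
          · have hg' : g = t := hg
            subst hg'
            have : (1 : ℚ) - mu a g ≠ 0 := by
              intro h; apply ht1; linarith
            rw [hq]
            field_simp
        | one => rw [map_one, hΘ1, mu_one hinf]; ring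
        | mul x y _ _ hx hy =>
          rw [map_mul, hΘ, hΘ, hφmu, hmul]
          linear_combination hx + mu a x * hy
        | inv x _ hx =>
          have h1 := hΘ x x⁻¹
          have h2 := hΘ (φ x) (φ x)⁻¹
          rw [mul_inv_cancel, hΘ1] at h1 h2
          rw [hφmu] at h2
          rw [map_inv, mu_inv hinf hall]
          have h3 := hmu0 x
          have h4 : mu a x * (Θ (φ x)⁻¹ - Θ x⁻¹) = - (q * (1 - mu a x)) := by
            linear_combination - hx + h1 - h2
          have h5 : Θ (φ x)⁻¹ - Θ x⁻¹ = (mu a x)⁻¹ * (mu a x * (Θ (φ x)⁻¹ - Θ x⁻¹)) := by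
            field_simp
          rw [h5, h4]
          field_simp
          ring
      -- equation for the exponent
      have heq : ∀ k ∈ Ks, ∃ g : G, Θ h + k * ev a c = q * (1 - mu a g⁻¹) := by
        rintro k ⟨g, hg⟩
        refine ⟨g, ?_⟩
        have h1 : g = φ g * (h * c ^ k) := by rw [← hg]; group
        have h2 := congrArg Θ h1
        rw [hΘ, hΘ, hφmu, hmuh k ⟨g, hg⟩, one_mul, hΘell (c ^ k) ⟨_, (hcfixk k).1⟩,
          ev_zpow hinf hccm] at h2
        have h3 := hδ g
        have h4 := hmu0 g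
        rw [mu_inv hinf hall]
        have h5 : mu a g * (Θ h + k * ev a c) = - (q * (1 - mu a g)) := by
          linear_combination - h2 - h3
        have h6 : Θ h + k * ev a c = (mu a g)⁻¹ * (mu a g * (Θ h + k * ev a c)) := by
          field_simp
        rw [h6, h5]
        field_simp
        ring
      by_cases hq0 : q = 0
      · -- at most one exponent
        apply Set.Subsingleton.finite
        intro k hk k' hk'
        obtain ⟨g, hg⟩ := heq k hk
        obtain ⟨g', hg'⟩ := heq k' hk'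
        rw [hq0, zero_mul] at hg hg'
        have h1 : ((k : ℚ) - k') * ev a c = 0 := by linarith
        have h2 := (mul_eq_zero.mp h1).resolve_right hevc
        have h3 : (k : ℚ) = k' := by linarith
        exact_mod_cast h3
      · obtain ⟨M, hM, hMz⟩ := exists_common_den (S := {1, Θ h / q, ev a c / q})
          (Set.toFinite _)
        obtain ⟨z₁, hz₁⟩ := hMz 1 (by simp)
        obtain ⟨z₂, hz₂⟩ := hMz (Θ h / q) (by simp)
        obtain ⟨z₃, hz₃⟩ := hMz (ev a c / q) (by simp)
        have hFV := hfin M hM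
        refine Set.Finite.of_finite_image (f := fun k : ℤ => 1 - (Θ h + k * ev a c) / q)
          (hFV.subset ?_) ?_
        · rintro _ ⟨k, hk, rfl⟩
          obtain ⟨g, hg⟩ := heq k hk
          refine ⟨⟨g⁻¹, ?_⟩, z₁ - z₂ - k * z₃, ?_⟩
          · simp only
            rw [hg]
            field_simp
            ring
          · push_cast
            rw [← hz₁, ← hz₂, ← hz₃]
            field_simp
            ring
        · intro k _ k' _ hkk'
          simp only at hkk'
          have h1 : ((k : ℚ) - k') * ev a c = 0 := by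
            field_simp at hkk'
            linarith
          have h2 := (mul_eq_zero.mp h1).resolve_right hevc
          have h3 : (k : ℚ) = k' := by linarith
          exact_mod_cast h3
    -- choice of representatives
    set b : ℤ → G := fun k => if h' : ∃ g : G, (φ g)⁻¹ * g = h * c ^ k then h'.choose else 1 with hb
    have hb' : ∀ k ∈ Ks, (φ (b k))⁻¹ * b k = h * c ^ k := by
      intro k hk
      have hk' : ∃ g : G, (φ g)⁻¹ * g = h * c ^ k := hk
      simp only [hb]
      rw [dif_pos hk']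
      exact hk'.choose_spec
    refine ⟨b '' Ks, hKfin.image b, ?_⟩
    rintro g ⟨c', hc', hg⟩
    obtain ⟨k, rfl⟩ := (hc c').mp hc'
    have hk : k ∈ Ks := ⟨g, hg⟩
    refine ⟨b k, ⟨k, hk, rfl⟩, g * (b k)⁻¹, ?_, 1, ⟨by simp, by simp⟩, by group⟩
    have h1 : (φ g)⁻¹ * g = (φ (b k))⁻¹ * b k := by rw [hg, hb' k hk]
    show φ (g * (b k)⁻¹) = g * (b k)⁻¹
    rw [map_mul, map_inv]
    calc φ g * (φ (b k))⁻¹ = φ g * ((φ (b k))⁻¹ * b k) * (b k)⁻¹ := by group
      _ = φ g * ((φ g)⁻¹ * g) * (b k)⁻¹ := by rw [h1]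
      _ = g * (b k)⁻¹ := by group
  · -- second case : exponents can be changed modulo a non-zero integer
    by_cases hne : Ks.Nonempty
    swap
    · refine ⟨∅, Set.finite_empty, ?_⟩
      rintro g ⟨c', hc', hg⟩
      exfalso
      obtain ⟨k, rfl⟩ := (hc c').mp hc'
      exact hne ⟨k, g, hg⟩
    obtain ⟨k₀, hk₀⟩ := hne
    have hmuh1 := hmuh k₀ hk₀
    -- relation
    obtain ⟨M, M', hM, hMM'⟩ := hS.cm hc1 hcell
      (x := h⁻¹ * φ c * h) (by
        have := fixed_conj (g := h⁻¹) (hφell c hcell)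
        simpa using this)
    have hne' : M ≠ M' := by
      rintro rfl
      have h1 := (ev_of_zpow_eq hinf hccm hM hMM').2
      have h2 : ev a (h⁻¹ * φ c * h) = l * ev a c := by
        have h3 := (ev_conj hinf hall h⁻¹ (hφev c hccm).1).2
        rw [inv_inv, mu_inv hinf hall, hmuh1, (hφev c hccm).2] at h3
        rw [h3]; ring
      rw [h2] at h1
      have h4 : (M : ℚ) ≠ 0 := by exact_mod_cast hM
      rw [div_self h4, one_mul] at h1
      have h5 : (l - 1) * ev a c = 0 := by linarith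
      have h6 := (mul_eq_zero.mp h5).resolve_right hevc
      exact hl1 (by linarith)
    have hrel : ∀ (b : G) (k s : ℤ), (φ b)⁻¹ * b = h * c ^ k →
        (φ (b * c ^ (M * s)))⁻¹ * (b * c ^ (M * s)) = h * c ^ (k + (M - M') * s) := by
      intro b k s hb
      have e1 : (φ c) ^ (M * s) = h * c ^ (M' * s) * h⁻¹ := by
        have : φ c = h * (h⁻¹ * φ c * h) * h⁻¹ := by group
        rw [this, conj_zpow, zpow_mul, hMM', ← zpow_mul]
      rw [map_mul, map_zpow, e1, mul_inv_rev]
      calc (h * c ^ (M' * s) * h⁻¹)⁻¹ * (φ b)⁻¹ * (b * c ^ (M * s))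
          = h * c ^ (-(M' * s)) * h⁻¹ * ((φ b)⁻¹ * b) * c ^ (M * s) := by group
        _ = h * (c ^ (-(M' * s)) * c ^ k * c ^ (M * s)) := by rw [hb]; group
        _ = h * c ^ (k + (M - M') * s) := by
          rw [← zpow_add, ← zpow_add]
          congr 2
          ring
    have hN : M - M' ≠ 0 := sub_ne_zero.mpr hne'
    -- representatives of residue classes
    set Q : ℤ → G × ℤ → Prop := fun ρ p => (φ p.1)⁻¹ * p.1 = h * c ^ p.2 ∧ p.2 % (M - M') = ρ
      with hQ
    set b : ℤ → G × ℤ := fun ρ => if h' : ∃ p, Q ρ p then h'.choose else 1 with hb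
    have hb' : ∀ ρ, (∃ p, Q ρ p) → Q ρ (b ρ) := by
      intro ρ h'
      simp only [hb]
      rw [dif_pos h']
      exact h'.choose_spec
    refine ⟨(fun ρ => (b ρ).1) '' (Finset.range (M - M').natAbs).image (fun n : ℕ => (n : ℤ)),
      (Finset.finite_toSet _).image _, ?_⟩
    rintro g ⟨c', hc', hg⟩
    obtain ⟨k, rfl⟩ := (hc c').mp hc'
    have hex : ∃ p, Q (k % (M - M')) p := ⟨(g, k), hg, rfl⟩
    obtain ⟨hb1, hb2⟩ := hb' _ hex
    set bb := b (k % (M - M')) with hbb
    have hdvd : (M - M') ∣ (k - bb.2) := Int.ModEq.dvd hb2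
    obtain ⟨s, hs⟩ := hdvd
    have hk : k = bb.2 + (M - M') * s := by linarith
    have h1 := hrel bb.1 bb.2 s hb1
    rw [← hk, ← hg] at h1
    refine ⟨bb.1, ⟨k % (M - M'), ?_, rfl⟩, g * (bb.1 * c ^ (M * s))⁻¹, ?_, c ^ (M * s),
      hcfixk _, by group⟩
    · rw [Finset.coe_image]
      refine ⟨(k % (M - M')).toNat, ?_, ?_⟩
      · rw [Finset.coe_range, Set.mem_Iio]
        have h2 := Int.emod_lt_abs k hN
        rw [Int.abs_eq_natAbs] at h2
        have h3 := Int.emod_nonneg k hN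
        omega
      · simp only
        exact Int.toNat_of_nonneg (Int.emod_nonneg k hN)
    · show φ (g * (bb.1 * c ^ (M * s))⁻¹) = g * (bb.1 * c ^ (M * s))⁻¹
      rw [map_mul, map_inv]
      set b' := bb.1 * c ^ (M * s) with hb'
      calc φ g * (φ b')⁻¹ = φ g * ((φ b')⁻¹ * b') * b'⁻¹ := by group
        _ = φ g * ((φ g)⁻¹ * g) * b'⁻¹ := by rw [h1]
        _ = g * b'⁻¹ := by group

end caseA

/-- **Main theorem.** -/
theorem fixed_fg (hS : IsGBSSystem G T) (hβ : betti G T = 1)
    (a : G) (ha1 : a ≠ 1) (ha : ∃ v : V, a • v = v)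
    (hΔ : ∀ n : ℤ, n ≠ -1 → modulus a ≠ powersOf n) (φ : G ≃* G) :
    (fixedSubgroup φ).FG := by
  have hinf := hS.infOrd ha ha1
  have hall := hS.allCm ha1 ha
  have hv := hS.finite_vertices
  have he := hS.finite_edges
  have hcard : Nat.card (VertexOrbits G V) = Nat.card (EdgeOrbits G T) := by
    unfold betti at hβ
    have : (Nat.card (VertexOrbits G V) : ℤ) = Nat.card (EdgeOrbits G T) := by linarith
    exact_mod_cast this
  obtain ⟨t, ht⟩ := exists_generator hS.acts hS.isTree hcard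
  -- the modulus is generated by `mu a t`
  have hrange : ∀ g : G, ∃ k : ℤ, mu a g = mu a t ^ k := by
    intro g
    have hg : g ∈ ellClosure G V t := by rw [ht]; trivial
    unfold ellClosure at hg
    induction hg using Subgroup.closure_induction with
    | mem g hg =>
      rcases hg with hg | hg
      · exact ⟨0, by rw [hS.mu_elliptic ha1 ha hg, zpow_zero]⟩
      · have hg' : g = t := hg
        exact ⟨1, by rw [hg', zpow_one]⟩
    | one => exact ⟨0, by rw [mu_one hinf, zpow_zero]⟩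
    | mul x y _ _ hx hy =>
      obtain ⟨k, hk⟩ := hx
      obtain ⟨l, hl⟩ := hy
      exact ⟨k + l, by rw [mu_mul hinf hall, hk, hl, zpow_add₀ (mu_ne_zero hinf hall t)]⟩
    | inv x _ hx =>
      obtain ⟨k, hk⟩ := hx
      exact ⟨-k, by rw [mu_inv hinf hall, hk, zpow_neg]⟩
  have hzp : ∀ k : ℤ, mu a (t ^ k) = mu a t ^ k := by
    intro k
    obtain ⟨m, rfl | rfl⟩ := k.eq_nat_or_neg
    · induction m with
      | zero => simp [mu_one hinf]
      | succ m ih =>
        rw [zpow_natCast, zpow_natCast] at ih ⊢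
        rw [pow_succ, mu_mul hinf hall, ih, pow_succ]
    · rw [zpow_neg, mu_inv hinf hall, zpow_neg]
      congr 1
      induction m with
      | zero => simp [mu_one hinf]
      | succ m ih =>
        rw [zpow_natCast, zpow_natCast] at ih ⊢
        rw [pow_succ, mu_mul hinf hall, ih, pow_succ]
  have hmod : modulus a = {q : ℚ | ∃ k : ℤ, q = mu a t ^ k} := by
    rw [modulus_eq_range hinf hall]
    ext q
    constructor
    · rintro ⟨g, rfl⟩
      exact hrange g
    · rintro ⟨k, rfl⟩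
      exact ⟨t ^ k, hzp k⟩
  rw [hmod] at hΔ
  have hfin : FinVal a := by
    intro M hM
    refine (finite_values hΔ hM).subset ?_
    rintro q ⟨⟨g, rfl⟩, hz⟩
    exact ⟨hrange g, hz⟩
  have ht1 : mu a t ≠ 1 := by
    intro h
    apply hΔ 1 (by norm_num)
    rw [h]
    ext q
    simp [powersOf]
  by_cases hφ : ∃ v : V, φ a • v = v
  · exact hS.fixed_fg_caseA ha1 ha hfin t ht ht1 φ hφ
  · push Not at hφ
    exact hS.fixed_fg_caseB ha1 ha φ hφ

end Pool.Agent.GBSFix
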