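import Pool.Agent.Lib.MP_2e9e4b_al.Defs
import Pool.Agent.Lib.MP_2e9e4b_al.Hyp

/-!
Commensurability of elliptic elements and the modular homomorphism.
-/

namespace Pool.Agent.GBSFix

open SimpleGraph

variable {G : Type*} [Group G]

lemma InfiniteCyclic.exists_gen {H : Subgroup G} (h : InfiniteCyclic H) :
    ∃ g : G, H = Subgroup.zpowers g ∧ ∀ k : ℤ, g ^ k = 1 → k = 0 := by
  obtain ⟨hc, hinf⟩ := h
  obtain ⟨⟨g, hgH⟩, hg⟩ := hc.exists_generator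
  have hH : H = Subgroup.zpowers g := by
    apply le_antisymm
    · intro x hx
      obtain ⟨k, hk⟩ := Subgroup.mem_zpowers_iff.mp (hg ⟨x, hx⟩)
      refine ⟨k, ?_⟩
      have := congrArg Subtype.val hk
      simpa using this
    · rw [Subgroup.zpowers_le]; exact hgH
  refine ⟨g, hH, ?_⟩
  intro k hk
  by_contra hk0
  have hfin : IsOfFinOrder g := isOfFinOrder_iff_zpow_eq_one.mpr ⟨k, hk0, hk⟩
  have : Finite (Subgroup.zpowers g) := hfin.finite_zpowers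
  rw [← hH] at this
  exact not_finite H

/-- infinite order -/
def InfOrd (a : G) : Prop := ∀ k : ℤ, a ^ k = 1 → k = 0

lemma InfOrd.zpow_inj {a : G} (ha : InfOrd a) {i j : ℤ} (h : a ^ i = a ^ j) : i = j := by
  have : a ^ (i - j) = 1 := by rw [zpow_sub, h, mul_inv_cancel]
  have := ha _ this
  omega

/-- `x` has a non-trivial power in `⟨a⟩`. -/
def Cm (a x : G) : Prop := ∃ i j : ℤ, i ≠ 0 ∧ x ^ i = a ^ j

open Classical in
/-- the rational number `j / i` if `x ^ i = a ^ j`. -/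
noncomputable def ev (a x : G) : ℚ :=
  if h : ∃ p : ℤ × ℤ, p.1 ≠ 0 ∧ x ^ p.1 = a ^ p.2 then (h.choose.2 : ℚ) / h.choose.1 else 0

lemma ev_eq {a x : G} (ha : InfOrd a) {i j : ℤ} (hi : i ≠ 0) (h : x ^ i = a ^ j) :
    ev a x = j / i := by
  have hex : ∃ p : ℤ × ℤ, p.1 ≠ 0 ∧ x ^ p.1 = a ^ p.2 := ⟨(i, j), hi, h⟩
  unfold ev
  rw [dif_pos hex]
  set p := hex.choose with hp
  obtain ⟨h1, h2⟩ := hex.choose_spec
  rw [← hp] at h1 h2
  have h3 : a ^ (p.2 * i) = a ^ (j * p.1) := by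
    rw [zpow_mul, ← h2, ← zpow_mul, mul_comm p.1 i, zpow_mul, h, ← zpow_mul]
  have h4 := ha.zpow_inj h3
  have h5 : (p.2 : ℚ) * i = j * p.1 := by exact_mod_cast h4
  have h6 : (p.1 : ℚ) ≠ 0 := by exact_mod_cast h1
  have h7 : (i : ℚ) ≠ 0 := by exact_mod_cast hi
  field_simp
  linarith

lemma Cm.refl (a : G) : Cm a a := ⟨1, 1, one_ne_zero, rfl⟩

lemma Cm.one (a : G) : Cm a 1 := ⟨1, 0, one_ne_zero, by simp⟩

lemma Cm.zpow {a x : G} (h : Cm a x) (k : ℤ) : Cm a (x ^ k) := by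
  obtain ⟨i, j, hi, h⟩ := h
  refine ⟨i, j * k, hi, ?_⟩
  rw [← zpow_mul, mul_comm k i, zpow_mul, h, zpow_mul]

lemma ev_self {a : G} (ha : InfOrd a) : ev a a = 1 := by
  rw [ev_eq ha one_ne_zero (rfl : a ^ (1 : ℤ) = a ^ (1 : ℤ))]; simp

lemma ev_one {a : G} (ha : InfOrd a) : ev a (1 : G) = 0 := by
  rw [ev_eq ha one_ne_zero (by simp : (1 : G) ^ (1 : ℤ) = a ^ (0 : ℤ))]; simp

lemma ev_zpow {a x : G} (ha : InfOrd a) (h : Cm a x) (k : ℤ) : ev a (x ^ k) = k * ev a x := by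
  obtain ⟨i, j, hi, h⟩ := h
  have h1 : (x ^ k) ^ i = a ^ (j * k) := by
    rw [← zpow_mul, mul_comm k i, zpow_mul, h, zpow_mul]
  rw [ev_eq ha hi h1, ev_eq ha hi h]
  push_cast
  ring

lemma ev_eq_zero {a x : G} (ha : InfOrd a) (h : Cm a x) (h0 : ev a x = 0) :
    ∃ i : ℤ, i ≠ 0 ∧ x ^ i = 1 := by
  obtain ⟨i, j, hi, h⟩ := h
  rw [ev_eq ha hi h] at h0
  have hi' : (i : ℚ) ≠ 0 := by exact_mod_cast hi
  have : (j : ℚ) = 0 := by
    rcases div_eq_zero_iff.mp h0 with h1 | h1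
    · exact h1
    · exact absurd h1 hi'
  have : j = 0 := by exact_mod_cast this
  subst this
  exact ⟨i, hi, by simpa using h⟩

lemma zpow_conj (g x : G) (k : ℤ) : (g * x * g⁻¹) ^ k = g * x ^ k * g⁻¹ := by
  simp [conj_zpow]

/-- change of the element inside `ev`: if `x ^ i = y ^ j` -/
lemma ev_of_zpow_eq {a x y : G} (ha : InfOrd a) (hy : Cm a y) {i j : ℤ} (hi : i ≠ 0)
    (h : x ^ i = y ^ j) : Cm a x ∧ ev a x = j / i * ev a y := by
  obtain ⟨m, n, hm, hmn⟩ := hy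
  have h1 : x ^ (i * m) = a ^ (n * j) := by
    rw [zpow_mul, h, ← zpow_mul, mul_comm j m, zpow_mul, hmn, ← zpow_mul]
  refine ⟨⟨i * m, n * j, mul_ne_zero hi hm, h1⟩, ?_⟩
  rw [ev_eq ha (mul_ne_zero hi hm) h1, ev_eq ha hm hmn]
  have h6 : (i : ℚ) ≠ 0 := by exact_mod_cast hi
  have h7 : (m : ℚ) ≠ 0 := by exact_mod_cast hm
  push_cast
  field_simp

/-- the modular function `g ↦ ev a (g a g⁻¹)`. -/
noncomputable def mu (a g : G) : ℚ := ev a (g * a * g⁻¹)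

/-- every conjugate of `a` is commensurable with `a`. -/
def AllCm (a : G) : Prop := ∀ g : G, Cm a (g * a * g⁻¹)

lemma ev_conj {a : G} (ha : InfOrd a) (hall : AllCm a) (g : G) {x : G} (hx : Cm a x) :
    Cm a (g * x * g⁻¹) ∧ ev a (g * x * g⁻¹) = mu a g * ev a x := by
  obtain ⟨i, j, hi, h⟩ := hx
  have h1 : (g * x * g⁻¹) ^ i = (g * a * g⁻¹) ^ j := by
    rw [zpow_conj, h, zpow_conj]
  obtain ⟨h2, h3⟩ := ev_of_zpow_eq ha (hall g) hi h1
  refine ⟨h2, ?_⟩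
  rw [h3, ev_eq ha hi h, mu]
  ring

lemma mu_mul {a : G} (ha : InfOrd a) (hall : AllCm a) (g h : G) :
    mu a (g * h) = mu a g * mu a h := by
  have h1 := (ev_conj ha hall g (hall h)).2
  have h2 : g * h * a * (g * h)⁻¹ = g * (h * a * h⁻¹) * g⁻¹ := by group
  rw [mu, h2, h1]
  rfl

lemma mu_one {a : G} (ha : InfOrd a) : mu a (1 : G) = 1 := by
  rw [mu]; simpa using ev_self ha

lemma mu_mul_inv {a : G} (ha : InfOrd a) (hall : AllCm a) (g : G) :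
    mu a g * mu a g⁻¹ = 1 := by
  rw [← mu_mul ha hall, mul_inv_cancel, mu_one ha]

lemma mu_ne_zero {a : G} (ha : InfOrd a) (hall : AllCm a) (g : G) : mu a g ≠ 0 := by
  intro h
  have := mu_mul_inv ha hall g
  rw [h, zero_mul] at this
  exact zero_ne_one this

lemma mu_inv {a : G} (ha : InfOrd a) (hall : AllCm a) (g : G) : mu a g⁻¹ = (mu a g)⁻¹ :=
  eq_inv_of_mul_eq_one_right (mu_mul_inv ha hall g)

lemma mu_of_cm {a x : G} (ha : InfOrd a) {i j : ℤ} (hj : j ≠ 0) (h : x ^ i = a ^ j) :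
    mu a x = 1 := by
  have h1 : (x * a * x⁻¹) ^ j = a ^ j := by
    rw [zpow_conj, ← h]
    have : Commute x (x ^ i) := (Commute.refl x).zpow_right i
    rw [this.eq]
    group
  rw [mu, ev_eq ha hj h1]
  have : (j : ℚ) ≠ 0 := by exact_mod_cast hj
  field_simp

lemma mu_eq_of_eq {a g : G} (ha : InfOrd a) {m n : ℤ} (hm : m ≠ 0)
    (h : g * a ^ m * g⁻¹ = a ^ n) : mu a g = n / m := by
  rw [← zpow_conj] at h
  rw [mu, ev_eq ha hm h]

lemma modulus_eq_range {a : G} (ha : InfOrd a) (hall : AllCm a) :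
    modulus a = Set.range (mu a) := by
  ext q
  constructor
  · rintro ⟨g, m, n, hm, hn, h, rfl⟩
    refine ⟨g⁻¹, ?_⟩
    rw [mu_inv ha hall, mu_eq_of_eq ha hm h, inv_div]
  · rintro ⟨g, rfl⟩
    obtain ⟨m, n, hm, h⟩ := hall g⁻¹
    have hn : n ≠ 0 := by
      rintro rfl
      rw [zpow_conj, zpow_zero] at h
      have : a ^ m = 1 := by
        have h1 : a ^ m = g * (g⁻¹ * a ^ m * g⁻¹⁻¹) * g⁻¹ := by group
        rw [h1, h]; group
      exact hm (ha _ this)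
    rw [zpow_conj] at h
    refine ⟨g⁻¹, m, n, hm, hn, h, ?_⟩
    have h1 := mu_eq_of_eq ha hm h
    rw [mu_inv ha hall] at h1
    rw [← inv_inv (mu a g), h1, inv_div]

section tree

variable {V : Type*} [MulAction G V] {T : SimpleGraph V}

lemma IsGBSSystem.acts (hS : IsGBSSystem G T) : Acts G T := hS.adj_smul

lemma IsGBSSystem.noInv (hS : IsGBSSystem G T) : NoInv G T := hS.no_inversion

lemma IsGBSSystem.vgen (hS : IsGBSSystem G T) (x : V) :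
    ∃ g : G, (∀ h : G, h • x = x ↔ ∃ k : ℤ, g ^ k = h) ∧ InfOrd g := by
  obtain ⟨g, h1, h2⟩ := (hS.vertex_stabilizer x).exists_gen
  refine ⟨g, ?_, h2⟩
  intro h
  rw [← MulAction.mem_stabilizer_iff, h1, Subgroup.mem_zpowers_iff]

lemma IsGBSSystem.egen (hS : IsGBSSystem G T) {x y : V} (hxy : T.Adj x y) :
    ∃ g : G, (∀ h : G, (h • x = x ∧ h • y = y) ↔ ∃ k : ℤ, g ^ k = h) ∧ InfOrd g := by
  obtain ⟨g, h1, h2⟩ := (hS.edge_stabilizer x y hxy).exists_gen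
  refine ⟨g, ?_, h2⟩
  intro h
  rw [← MulAction.mem_stabilizer_iff, ← MulAction.mem_stabilizer_iff, ← Subgroup.mem_inf, h1,
    Subgroup.mem_zpowers_iff]

lemma IsGBSSystem.infOrd (hS : IsGBSSystem G T) {x : G} (hx : ∃ v : V, x • v = v) (h1 : x ≠ 1) :
    InfOrd x := by
  obtain ⟨v, hv⟩ := hx
  obtain ⟨g, hg, hginf⟩ := hS.vgen v
  obtain ⟨s, rfl⟩ := (hg x).mp hv
  intro k hk
  rw [← zpow_mul] at hk
  have h2 := hginf _ hk
  rcases mul_eq_zero.mp h2 with h3 | h3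
  · subst h3; simp at h1
  · exact h3

lemma IsGBSSystem.pow_mem_of_walk (hS : IsGBSSystem G T) {v w : V} (p : T.Walk v w) {x : G}
    (hx : x • v = v) : ∃ i : ℤ, i ≠ 0 ∧ x ^ i • w = w := by
  induction p generalizing x with
  | nil => exact ⟨1, one_ne_zero, by simpa using hx⟩
  | @cons u v' _ hadj _ ih =>
    obtain ⟨g, hg, hginf⟩ := hS.vgen u
    obtain ⟨c, hc, hcinf⟩ := hS.egen hadj
    obtain ⟨s, hs⟩ := (hg x).mp hx
    have hcc := (hc c).mpr ⟨1, by simp⟩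
    obtain ⟨t, ht⟩ := (hg c).mp hcc.1
    have ht0 : t ≠ 0 := by
      rintro rfl
      rw [zpow_zero] at ht
      have := hcinf 1 (by rw [← ht]; simp)
      exact one_ne_zero this
    have hxt : x ^ t • v' = v' := by
      have h1 : x ^ t = c ^ s := by
        rw [← hs, ← ht, ← zpow_mul, ← zpow_mul, mul_comm]
      rw [h1]
      exact ((hc _).mpr ⟨s, rfl⟩).2
    obtain ⟨i, hi, h⟩ := ih hxt
    exact ⟨t * i, mul_ne_zero ht0 hi, by rw [zpow_mul]; exact h⟩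

lemma IsGBSSystem.pow_mem (hS : IsGBSSystem G T) (v w : V) {x : G}
    (hx : x • v = v) : ∃ i : ℤ, i ≠ 0 ∧ x ^ i • w = w := by
  obtain ⟨p⟩ := hS.isTree.connected.preconnected v w
  exact hS.pow_mem_of_walk p hx

/-- any elliptic element has a non-trivial power which is a power of `a` (`a ≠ 1` elliptic). -/
lemma IsGBSSystem.cm (hS : IsGBSSystem G T) {a : G} (ha1 : a ≠ 1) (ha : ∃ v : V, a • v = v)
    {x : G} (hx : ∃ v : V, x • v = v) : Cm a x := by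
  obtain ⟨v, hv⟩ := ha
  obtain ⟨w, hw⟩ := hx
  obtain ⟨m, hm, hmw⟩ := hS.pow_mem v w hv
  obtain ⟨g, hg, hginf⟩ := hS.vgen w
  obtain ⟨s, hs⟩ := (hg _).mp hmw
  obtain ⟨t, ht⟩ := (hg _).mp hw
  have hs0 : s ≠ 0 := by
    rintro rfl
    rw [zpow_zero] at hs
    exact hm (hS.infOrd ⟨v, hv⟩ ha1 m hs.symm)
  refine ⟨s, m * t, hs0, ?_⟩
  rw [zpow_mul, ← hs, ← ht, ← zpow_mul, ← zpow_mul, mul_comm]

lemma fixed_conj {g x : G} (hx : ∃ v : V, x • v = v) : ∃ v : V, (g * x * g⁻¹) • v = v := by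
  obtain ⟨v, hv⟩ := hx
  refine ⟨g • v, ?_⟩
  rw [← mul_smul, inv_mul_cancel_right, mul_smul, hv]

lemma IsGBSSystem.allCm (hS : IsGBSSystem G T) {a : G} (ha1 : a ≠ 1) (ha : ∃ v : V, a • v = v) :
    AllCm a := fun _ => hS.cm ha1 ha (fixed_conj ha)

lemma IsGBSSystem.ev_ne_zero (hS : IsGBSSystem G T) {a : G} (ha1 : a ≠ 1)
    (ha : ∃ v : V, a • v = v) {x : G} (hx : ∃ v : V, x • v = v) (hx1 : x ≠ 1) : ev a x ≠ 0 := by
  intro h
  obtain ⟨i, hi, h1⟩ := ev_eq_zero (hS.infOrd ha ha1) (hS.cm ha1 ha hx) h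
  exact hi (hS.infOrd hx hx1 i h1)

lemma IsGBSSystem.mu_elliptic (hS : IsGBSSystem G T) {a : G} (ha1 : a ≠ 1)
    (ha : ∃ v : V, a • v = v) {x : G} (hx : ∃ v : V, x • v = v) : mu a x = 1 := by
  have hinf := hS.infOrd ha ha1
  by_cases hx1 : x = 1
  · subst hx1; exact mu_one hinf
  obtain ⟨i, j, hi, h⟩ := hS.cm ha1 ha hx
  refine mu_of_cm hinf (i := i) (j := j) ?_ h
  rintro rfl
  rw [zpow_zero] at h
  exact hi (hS.infOrd hx hx1 i h)

/-- `ev` is additive on vertex stabilisers. -/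
lemma IsGBSSystem.ev_mul (hS : IsGBSSystem G T) {a : G} (ha1 : a ≠ 1)
    (ha : ∃ v : V, a • v = v) {x y : G} {v : V} (hx : x • v = v) (hy : y • v = v) :
    ev a (x * y) = ev a x + ev a y := by
  obtain ⟨g, hg, hginf⟩ := hS.vgen v
  have hinf := hS.infOrd ha ha1
  have hgc : Cm a g := hS.cm ha1 ha ⟨v, (hg g).mpr ⟨1, by simp⟩⟩
  obtain ⟨s, rfl⟩ := (hg x).mp hx
  obtain ⟨t, rfl⟩ := (hg y).mp hy
  rw [← zpow_add, ev_zpow hinf hgc, ev_zpow hinf hgc, ev_zpow hinf hgc]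
  push_cast
  ring

end tree

end Pool.Agent.GBSFix
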