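import Mathlib

/-!
Elementary metric facts about trees (simple graphs), phrased with the relation
`Nxt T x y p` : `y` is a neighbour of `x` which is one step closer to `p`.
-/

namespace Pool.Agent.GBSFix

open SimpleGraph

variable {V : Type*} {T : SimpleGraph V}

/-- `y` is a neighbour of `x` one step closer to `p`. -/
def Nxt (T : SimpleGraph V) (x y p : V) : Prop := T.Adj x y ∧ T.dist x p = T.dist y p + 1

lemma Nxt.adj {x y p : V} (h : Nxt T x y p) : T.Adj x y := h.1

lemma exists_nxt (hT : T.Connected) {x p : V} (hxp : x ≠ p) : ∃ y, Nxt T x y p := by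
  obtain ⟨w, hw⟩ := hT.exists_walk_length_eq_dist x p
  cases w with
  | nil => exact absurd rfl hxp
  | @cons _ y _ hadj w' =>
    refine ⟨y, hadj, ?_⟩
    have h1 : T.dist y p ≤ w'.length := dist_le w'
    have h2 : T.dist x p ≤ T.dist x y + T.dist y p := hT.dist_triangle
    have h3 : T.dist x y = 1 := dist_eq_one_iff_adj.mpr hadj
    simp only [Walk.length_cons] at hw
    omega

lemma nxt_or_nxt (hT : T.IsTree) {x y : V} (h : T.Adj x y) (p : V) : Nxt T x y p ∨ Nxt T y x p := by
  rcases hT.dist_eq_dist_add_one_of_adj p h with h1 | h1
  · left; exact ⟨h, by rw [dist_comm, h1, dist_comm]⟩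
  · right; exact ⟨h.symm, by rw [dist_comm, h1, dist_comm]⟩

lemma nxt_of_not_nxt (hT : T.IsTree) {x y p : V} (h : T.Adj x y) (h1 : ¬ Nxt T x y p) :
    Nxt T y x p := (nxt_or_nxt hT h p).resolve_left h1

lemma nxt_unique (hT : T.IsTree) {x y y' p : V} (h : Nxt T x y p) (h' : Nxt T x y' p) : y = y' := by
  classical
  obtain ⟨P, hP, hPl⟩ := hT.connected.exists_path_of_dist p x
  have key : ∀ z, Nxt T x z p → z = P.penultimate := by
    intro z hz
    obtain ⟨Q, hQ, hQl⟩ := hT.connected.exists_path_of_dist p z
    have hx : x ∉ Q.support := by
      intro hx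
      have h1 : T.dist p x ≤ (Q.takeUntil x hx).length := dist_le _
      have h2 : (Q.takeUntil x hx).length ≤ Q.length := Q.length_takeUntil_le_length hx
      have h3 := hz.2
      rw [dist_comm (u := x), dist_comm (u := z)] at h3
      omega
    have hz' : z ∈ P.support :=
      hT.isAcyclic.mem_support_of_ne_mem_support_of_adj_of_isPath hP hQ hz.1 hx
    exact hT.isAcyclic.eq_penultimate_of_adj_end hP hz.1 hz'
  rw [key y h, key y' h']

/-- crossing formula: if `x ~ y`, `x` is closer to `p` than `y`, and `y` is closer to `q` than `x`,
then the geodesic from `p` to `q` passes through the edge. -/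
lemma dist_cross (hT : T.IsTree) {x y p q : V} (h1 : Nxt T y x p) (h2 : Nxt T x y q) :
    T.dist p q = T.dist x p + 1 + T.dist y q := by
  have key : ∀ n : ℕ, ∀ p, T.dist x p = n → T.dist y p = n + 1 →
      T.dist p q = n + 1 + T.dist y q := by
    intro n
    induction n using Nat.strong_induction_on with
    | _ n ih =>
      intro p hxp hyp
      by_cases hpx : p = x
      · subst hpx
        have : n = 0 := by rw [← hxp]; exact dist_self
        have h3 := h2.2
        omega
      · obtain ⟨p', hp'⟩ := exists_nxt hT.connected hpx
        have hn : n ≠ 0 := by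
          intro h0
          rw [h0] at hxp
          exact hpx ((hT.connected.dist_eq_zero_iff.mp hxp).symm)
        obtain ⟨m, rfl⟩ := Nat.exists_eq_succ_of_ne_zero hn
        have e1 : T.dist x p' = m := by
          have := hp'.2
          rw [dist_comm (u := p), dist_comm (u := p')] at this
          omega
        have e2 : T.dist y p' = m + 1 := by
          have t1 : T.dist y p' ≤ T.dist y x + T.dist x p' := hT.connected.dist_triangle
          have t2 : T.dist y p ≤ T.dist y p' + T.dist p' p := hT.connected.dist_triangle
          have t3 : T.dist y x = 1 := dist_eq_one_iff_adj.mpr h1.1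
          have t4 : T.dist p' p = 1 := dist_eq_one_iff_adj.mpr hp'.1.symm
          omega
        have e3 := ih m (by omega) p' e1 e2
        rcases nxt_or_nxt hT hp'.1 q with h4 | h4
        · have := h4.2
          omega
        · -- `p` closer to `q` than `p'` : contradiction
          exfalso
          by_cases hp'x : p' = x
          · subst hp'x
            have : p = y := nxt_unique hT h4 h2
            subst this
            simp at hyp
          · obtain ⟨p'', hp''⟩ := exists_nxt hT.connected hp'x
            have hm : m ≠ 0 := by
              intro h0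
              rw [h0] at e1
              exact hp'x ((hT.connected.dist_eq_zero_iff.mp e1).symm)
            obtain ⟨l, rfl⟩ := Nat.exists_eq_succ_of_ne_zero hm
            have f1 : T.dist x p'' = l := by
              have := hp''.2
              rw [dist_comm (u := p'), dist_comm (u := p'')] at this
              omega
            have f2 : T.dist y p'' = l + 1 := by
              have t1 : T.dist y p'' ≤ T.dist y x + T.dist x p'' := hT.connected.dist_triangle
              have t2 : T.dist y p' ≤ T.dist y p'' + T.dist p'' p' := hT.connected.dist_triangle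
              have t3 : T.dist y x = 1 := dist_eq_one_iff_adj.mpr h1.1
              have t4 : T.dist p'' p' = 1 := dist_eq_one_iff_adj.mpr hp''.1.symm
              omega
            have f3 := ih l (by omega) p'' f1 f2
            have : p = p'' := nxt_unique hT h4 ⟨hp''.1, by omega⟩
            subst this
            omega
  have h3 := h1.2
  exact key _ p rfl (by omega)

lemma segment_finite (hT : T.IsTree) (p q : V) :
    {x | T.dist p x + T.dist x q = T.dist p q}.Finite := by
  have key : ∀ n : ℕ, ∀ p, T.dist p q = n → {x | T.dist p x + T.dist x q = T.dist p q}.Finite := by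
    intro n
    induction n with
    | zero =>
      intro p hp
      refine (Set.finite_singleton p).subset ?_
      intro x hx
      simp only [Set.mem_ofPred_eq] at hx
      have : T.dist p x = 0 := by omega
      exact ((hT.connected.dist_eq_zero_iff.mp this)).symm
    | succ n ih =>
      intro p hp
      have hpq : p ≠ q := by
        rintro rfl
        simp at hp
      obtain ⟨p', hp'⟩ := exists_nxt hT.connected hpq
      have h1 := hp'.2
      refine ((ih p' (by omega)).union (Set.finite_singleton p)).subset ?_
      intro x hx
      simp only [Set.mem_ofPred_eq] at hx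
      by_cases hxp : x = p
      · right; exact hxp
      · left
        obtain ⟨p'', hp''⟩ := exists_nxt hT.connected (Ne.symm hxp)
        have h2 := hp''.2
        have t1 : T.dist p'' q ≤ T.dist p'' x + T.dist x q := hT.connected.dist_triangle
        have t2 : T.dist p q ≤ T.dist p p'' + T.dist p'' q := hT.connected.dist_triangle
        have t3 : T.dist p p'' = 1 := dist_eq_one_iff_adj.mpr hp''.1
        have : p'' = p' := nxt_unique hT ⟨hp''.1, by omega⟩ hp'
        subst this
        simp only [Set.mem_ofPred_eq]
        omega
  exact key _ p rfl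

/-- For given `p, q`, only finitely many darts `(x, y)` satisfy: `x` is closer to `p` and `y` is
closer to `q`. -/
lemma cross_finite (hT : T.IsTree) (p q : V) :
    {d : V × V | Nxt T d.2 d.1 p ∧ Nxt T d.1 d.2 q}.Finite := by
  refine ((segment_finite hT p q).prod (segment_finite hT p q)).subset ?_
  rintro ⟨x, y⟩ ⟨h1, h2⟩
  have h3 := dist_cross hT h1 h2
  have h4 := h1.2
  have h5 := h2.2
  simp only [Set.mem_prod, Set.mem_ofPred_eq] at *
  rw [dist_comm (u := p) (v := x), dist_comm (u := p) (v := y)]
  constructor <;> omega

/-- the next vertex from `x` towards `p` (and `x` itself if `x = p`). -/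
noncomputable def nxt (T : SimpleGraph V) (x p : V) : V :=
  open Classical in if h : ∃ y, Nxt T x y p then h.choose else x

lemma nxt_eq (hT : T.IsTree) {x y p : V} (h : Nxt T x y p) : nxt T x p = y := by
  have h' : ∃ y, Nxt T x y p := ⟨y, h⟩
  unfold nxt
  rw [dif_pos h']
  exact nxt_unique hT h'.choose_spec h

lemma nxt_self (x : V) : nxt T x x = x := by
  unfold nxt
  rw [dif_neg]
  rintro ⟨y, h⟩
  have := h.2
  simp at this

lemma nxt_spec (hT : T.IsTree) {x p : V} (h : x ≠ p) : Nxt T x (nxt T x p) p := by
  obtain ⟨y, hy⟩ := exists_nxt hT.connected h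
  rwa [nxt_eq hT hy]

end Pool.Agent.GBSFix
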